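import Pool.Agent.helper14.NS.TopS
import Pool.Agent.helper14.NR.Share
import Pool.Agent.helper14.NR.Single

/-!
Generated: the top of the `b` range of the piece Q68f.
-/

namespace Pool.Agent.helper14.NS.Q68f

open Pool.Agent.helper31.IA (Z)
open Pool.Agent.helper31.IX (Op XOps runX Cov CovD cov_split covD_split)
open Pool.Agent.helper31.IC (TD)
open Pool.Agent.helper63.RG (reloc)
open Pool.Agent.helper63.NF
open Pool.Agent.helper14.CF (xE covD_E)
open Pool.Agent.helper14.NR (share)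

open Pool.Agent.helper14.NR (ρ1 topB cov_single)
open Pool.Agent.helper14.NS (topPS top_ofS)

def p_x : List Op := [
  .scale ⟨2251799813685248, 0, 0, 0⟩ 0,
  .scale ⟨7138504081408, 0, 0, 0⟩ 0,
  .const ⟨0, 601020543533056, 0, 0⟩,
  .add 1 0,
  .mul 0 4,
  .const ⟨11410621857792, 0, 0, 0⟩,
  .add 1 0,
  .pos 0,
  .mul 7 0,
  .scale ⟨2199023255552, 0, 0, 0⟩ 0,
  .neg 0,
  .exp 0,
  .const ⟨1099511627776, 0, 0, 0⟩,
  .sub 0 1,
  .scale ⟨2199023255552, 0, 0, 0⟩ 6,
  .neg 0,
  .exp 0,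
  .const ⟨1099511627776, 0, 0, 0⟩,
  .add 0 1,
  .log 0,
  .const ⟨2199023255552, 0, 0, 0⟩,
  .log 0,
  .scale ⟨2199023255552, 0, 0, 0⟩ 21,
  .sub 1 3,
  .mul 1 0,
  .exp 0,
  .mul 3 4,
  .exp 0,
  .mul 14 14,
  .mul 0 3,
  .sub 0 2,
  .const ⟨1099511627776, 0, 0, 0⟩,
  .add 1 0,
  .pos 0]

set_option maxRecDepth 1000000 in
noncomputable def c_x {α : Type} (cst : Z → α) (add sub mul : α → α → α) (scale : Z → α → α)
    (neg inv exp log : α → α) (ok : α → Bool) (isPos : Nat → α → Bool) (isLt : α → Nat → Bool)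
    (ball : Nat → α → α) (rball : α → α → α) : List α → Bool
  | [x0] =>
  let v0 := scale ⟨2251799813685248, 0, 0, 0⟩ x0; ok v0 && (
  let v1 := scale ⟨7138504081408, 0, 0, 0⟩ v0; ok v1 && (
  let v2 := cst ⟨0, 601020543533056, 0, 0⟩; ok v2 && (
  let v3 := add v1 v2; ok v3 && (
  let v4 := mul v3 x0; ok v4 && (
  let v5 := cst ⟨11410621857792, 0, 0, 0⟩; ok v5 && (
  let v6 := add v4 v5; ok v6 && (
  isPos 1 v6 && (
  let v7 := mul x0 v6; ok v7 && (
  let v8 := scale ⟨2199023255552, 0, 0, 0⟩ v7; ok v8 && (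
  let v9 := neg v8; ok v9 && (
  let v10 := exp v9; ok v10 && (
  let v11 := cst ⟨1099511627776, 0, 0, 0⟩; ok v11 && (
  let v12 := sub v11 v10; ok v12 && (
  let v13 := scale ⟨2199023255552, 0, 0, 0⟩ v6; ok v13 && (
  let v14 := neg v13; ok v14 && (
  let v15 := exp v14; ok v15 && (
  let v16 := cst ⟨1099511627776, 0, 0, 0⟩; ok v16 && (
  let v17 := add v16 v15; ok v17 && (
  let v18 := log v17; ok v18 && (
  let v19 := cst ⟨2199023255552, 0, 0, 0⟩; ok v19 && (
  let v20 := log v19; ok v20 && (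
  let v21 := scale ⟨2199023255552, 0, 0, 0⟩ x0; ok v21 && (
  let v22 := sub v20 v18; ok v22 && (
  let v23 := mul v21 v22; ok v23 && (
  let v24 := exp v23; ok v24 && (
  let v25 := mul v21 v20; ok v25 && (
  let v26 := exp v25; ok v26 && (
  let v27 := mul v12 v12; ok v27 && (
  let v28 := mul v27 v24; ok v28 && (
  let v29 := sub v28 v26; ok v29 && (
  let v30 := cst ⟨1099511627776, 0, 0, 0⟩; ok v30 && (
  let v31 := add v29 v30; ok v31 && (
  isPos 1 v31 && (
  true))))))))))))))))))))))))))))))))))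
  | _ => false

set_option maxRecDepth 1000000 in
theorem c_x_eq (X : XOps) (m : List X.O.α)
    (h : c_x X.O.cst X.O.add X.O.sub X.O.mul X.O.scale X.O.neg X.O.inv X.O.exp X.O.log X.O.ok
      X.O.isPos X.O.isLt X.ball X.rball m = true) :
    runX X 1 p_x m = true := by
  match m, h with
  | [x0], h => exact h

abbrev gx : List (List Op) := [p_x]

noncomputable abbrev kx : List (List xE.O.α → Bool) := [c_x xE.O.cst xE.O.add xE.O.sub xE.O.mul xE.O.scale xE.O.neg xE.O.inv xE.O.exp xE.O.log xE.O.ok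
      xE.O.isPos xE.O.isLt xE.ball xE.rball]

theorem kx_eq : List.Forall₂ (fun (ops : List Op) (chk : List xE.O.α → Bool) =>
    ∀ m, chk m = true → runX xE 1 ops m = true) gx kx :=
  List.Forall₂.cons (c_x_eq xE) List.Forall₂.nil

theorem gx_eq : gx = [comp (topPS (11410621857792) (-601020543533056) (14619656358723584)) ρ1 1] := by decide +kernel

theorem x_c : CovD 0 gx [(13582204928, 2587885568)] :=
  covD_E kx_eq (.n 0 (.l 0) (.n 0 (.n 0 (.l 0) (.l 0)) (.n 0 (.n 0 (.l 0) (.l 0)) (.l 0))))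
    [(13582204928, 2587885568)] rfl (by decide +kernel)

theorem cov_x : Cov 0 (comp (topPS (11410621857792) (-601020543533056) (14619656358723584)) ρ1 1) [(13582204928, 2587885568)] :=
  cov_single (by rw [← gx_eq]; exact x_c)

theorem top {e κ : ℝ} (h1 : (68 : ℝ) ≤ e) (h2 : e ≤ 100)
    (hd : 2 * (Real.cosh κ - 1) / Real.cosh (e * κ / 2) ^ (2 / e) < 4 ^ (1 / e) - 1) :
    e * κ / 2 < topB (11410621857792) (-601020543533056) (14619656358723584) (1 / e) := by
  have he : 0 < e := lt_of_lt_of_le (by norm_num) h1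
  refine top_ofS cov_x he ?_ hd
  rw [abs_le]
  constructor
  · rw [neg_le_sub_iff_le_add, ← sub_le_iff_le_add]
    refine le_trans ?_ (one_div_le_one_div_of_le he h2)
    norm_num
  · rw [sub_le_iff_le_add]
    refine (one_div_le_one_div_of_le (by norm_num) h1).trans ?_
    norm_num

end Pool.Agent.helper14.NS.Q68f
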