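import Pool.Agent.helper14.NS.Q68f.PN2

/-!
Generated: certificates.
-/

namespace Pool.Agent.helper14.NS.Q68f

open Pool.Agent.helper31.IA (Z)
open Pool.Agent.helper31.IX (Op XOps runX Cov CovD cov_split covD_split)
open Pool.Agent.helper31.IC (TD)
open Pool.Agent.helper63.RG (reloc)
open Pool.Agent.helper63.NF hiding TD
open Pool.Agent.helper4.NS
open Pool.Agent.helper14.CF (xE covD_E)
open Pool.Agent.helper14.NR (share)

mutual
theorem E2_c0_t4 : CovD 1 gE2 [(13582204928, 2587885568), (274877906944, 274877906944), (107951292416, 107951292416)] :=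
  covD_E kE2_eq (.n 2 (.n 2 (.l 1) (.n 1 (.l 1) (.l 1))) (.n 0 (.n 1 (.n 2 (.n 0 (.l 0) (.l 0)) (.l 0)) (.n 0 (.n 2 (.l 0) (.l 0)) (.n 2 (.l 0) (.l 0)))) (.n 1 (.n 2 (.l 0) (.l 0)) (.n 2 (.l 0) (.l 0)))))
    [(13582204928, 2587885568), (274877906944, 274877906944), (107951292416, 107951292416)] rfl (by decide +kernel)
theorem E2_c0_t6 : CovD 1 gE2 [(12288262144, 1293942784), (274877906944, 274877906944), (323853877248, 107951292416)] :=
  covD_E kE2_eq (.n 1 (.n 2 (.n 2 (.l 0) (.l 0)) (.n 1 (.l 0) (.l 0))) (.n 1 (.n 2 (.n 0 (.l 0) (.l 0)) (.l 0)) (.n 0 (.n 2 (.l 0) (.l 0)) (.n 2 (.l 0) (.l 0)))))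
    [(12288262144, 1293942784), (274877906944, 274877906944), (323853877248, 107951292416)] rfl (by decide +kernel)
end

mutual
theorem E2_c0_t7 : CovD 1 gE2 [(14876147712, 1293942784), (274877906944, 274877906944), (323853877248, 107951292416)] :=
  covD_E kE2_eq (.n 1 (.n 1 (.n 2 (.l 0) (.l 0)) (.n 2 (.l 0) (.l 0))) (.n 2 (.n 2 (.l 0) (.l 0)) (.n 0 (.l 0) (.l 0))))
    [(14876147712, 1293942784), (274877906944, 274877906944), (323853877248, 107951292416)] rfl (by decide +kernel)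
theorem E2_c0_t9 : CovD 1 gE2 [(13582204928, 2587885568), (137438953472, 137438953472), (647707754496, 215902584832)] :=
  covD_E kE2_eq (.n 0 (.n 1 (.n 2 (.n 2 (.l 0) (.l 0)) (.l 0)) (.n 2 (.n 2 (.l 0) (.l 0)) (.n 0 (.l 0) (.l 0)))) (.n 2 (.n 2 (.l 0) (.l 0)) (.n 1 (.l 0) (.l 0))))
    [(13582204928, 2587885568), (137438953472, 137438953472), (647707754496, 215902584832)] rfl (by decide +kernel)
end

mutual
theorem E2_c0_t10 : CovD 1 gE2 [(13582204928, 2587885568), (412316860416, 137438953472), (647707754496, 215902584832)] :=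
  covD_E kE2_eq (.n 0 (.n 1 (.n 2 (.n 2 (.l 0) (.l 0)) (.n 0 (.l 0) (.l 0))) (.n 2 (.n 2 (.l 0) (.l 0)) (.n 2 (.l 0) (.l 0)))) (.n 2 (.n 2 (.n 0 (.l 0) (.l 0)) (.l 0)) (.n 2 (.l 0) (.l 0))))
    [(13582204928, 2587885568), (412316860416, 137438953472), (647707754496, 215902584832)] rfl (by decide +kernel)
theorem E2_c0_t13 : CovD 1 gE2 [(13582204928, 2587885568), (68719476736, 68719476736), (1295415508992, 431805169664)] :=
  covD_E kE2_eq (.n 0 (.n 2 (.n 2 (.l 0) (.l 0)) (.n 2 (.l 0) (.l 0))) (.n 2 (.n 2 (.l 0) (.l 0)) (.n 2 (.l 0) (.l 0))))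
    [(13582204928, 2587885568), (68719476736, 68719476736), (1295415508992, 431805169664)] rfl (by decide +kernel)
end

mutual
theorem E2_c0_t14 : CovD 1 gE2 [(13582204928, 2587885568), (206158430208, 68719476736), (1295415508992, 431805169664)] :=
  covD_E kE2_eq (.n 0 (.n 2 (.n 2 (.n 0 (.l 0) (.l 0)) (.l 0)) (.n 2 (.l 0) (.l 0))) (.n 2 (.n 2 (.l 0) (.l 0)) (.n 2 (.l 0) (.l 0))))
    [(13582204928, 2587885568), (206158430208, 68719476736), (1295415508992, 431805169664)] rfl (by decide +kernel)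
theorem E2_c0_t16 : CovD 1 gE2 [(13582204928, 2587885568), (343597383680, 68719476736), (1295415508992, 431805169664)] :=
  covD_E kE2_eq (.n 0 (.n 2 (.n 0 (.n 2 (.l 0) (.l 0)) (.n 2 (.l 0) (.l 0))) (.n 2 (.l 0) (.l 0))) (.n 2 (.n 2 (.l 0) (.l 0)) (.n 2 (.l 0) (.l 0))))
    [(13582204928, 2587885568), (343597383680, 68719476736), (1295415508992, 431805169664)] rfl (by decide +kernel)
end

mutual
theorem E2_c0_t17 : CovD 1 gE2 [(13582204928, 2587885568), (481036337152, 68719476736), (1295415508992, 431805169664)] :=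
  covD_E kE2_eq (.n 0 (.n 0 (.n 2 (.n 2 (.l 0) (.l 0)) (.n 2 (.l 0) (.l 0))) (.n 2 (.n 2 (.l 0) (.l 0)) (.n 2 (.l 0) (.l 0)))) (.n 2 (.n 2 (.n 0 (.l 0) (.l 0)) (.l 0)) (.n 2 (.l 0) (.l 0))))
    [(13582204928, 2587885568), (481036337152, 68719476736), (1295415508992, 431805169664)] rfl (by decide +kernel)
theorem E2_c0_t22 : CovD 1 gE2 [(13582204928, 2587885568), (618475290624, 68719476736), (215902584832, 215902584832)] :=
  covD_E kE2_eq (.n 2 (.n 2 (.n 2 (.l 1) (.l 1)) (.n 0 (.n 2 (.l 0) (.l 0)) (.n 2 (.l 0) (.l 0)))) (.n 0 (.n 0 (.n 2 (.l 0) (.l 0)) (.n 2 (.l 0) (.l 0))) (.n 2 (.n 0 (.l 0) (.l 0)) (.l 0))))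
    [(13582204928, 2587885568), (618475290624, 68719476736), (215902584832, 215902584832)] rfl (by decide +kernel)
end

mutual
theorem E2_c0_t23 : CovD 1 gE2 [(13582204928, 2587885568), (618475290624, 68719476736), (647707754496, 215902584832)] :=
  covD_E kE2_eq (.n 0 (.n 2 (.n 2 (.l 0) (.l 0)) (.n 2 (.l 0) (.l 0))) (.n 2 (.n 2 (.l 0) (.l 0)) (.n 0 (.l 0) (.l 0))))
    [(13582204928, 2587885568), (618475290624, 68719476736), (647707754496, 215902584832)] rfl (by decide +kernel)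
theorem E2_c0_t24 : CovD 1 gE2 [(13582204928, 2587885568), (618475290624, 68719476736), (1295415508992, 431805169664)] :=
  covD_E kE2_eq (.n 0 (.n 0 (.n 2 (.n 2 (.n 0 (.l 0) (.l 0)) (.l 0)) (.n 2 (.l 0) (.l 0))) (.n 2 (.n 2 (.l 0) (.l 0)) (.n 2 (.l 0) (.l 0)))) (.n 2 (.n 0 (.n 2 (.l 0) (.l 0)) (.n 2 (.l 0) (.l 0))) (.n 2 (.l 0) (.l 0))))
    [(13582204928, 2587885568), (618475290624, 68719476736), (1295415508992, 431805169664)] rfl (by decide +kernel)
end

mutual
theorem E2_c0_t27 : CovD 1 gE2 [(13582204928, 2587885568), (755914244096, 68719476736), (215902584832, 215902584832)] :=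
  covD_E kE2_eq (.n 2 (.n 2 (.n 2 (.l 1) (.l 1)) (.n 0 (.n 2 (.l 0) (.l 0)) (.n 2 (.l 0) (.l 0)))) (.n 0 (.n 2 (.n 2 (.l 0) (.l 0)) (.n 0 (.l 0) (.l 0))) (.n 0 (.n 2 (.l 0) (.l 0)) (.n 2 (.l 0) (.l 0)))))
    [(13582204928, 2587885568), (755914244096, 68719476736), (215902584832, 215902584832)] rfl (by decide +kernel)
theorem E2_c0_t28 : CovD 1 gE2 [(13582204928, 2587885568), (755914244096, 68719476736), (647707754496, 215902584832)] :=
  covD_E kE2_eq (.n 0 (.n 2 (.n 0 (.n 2 (.l 0) (.l 0)) (.n 2 (.l 0) (.l 0))) (.n 2 (.l 0) (.l 0))) (.n 2 (.n 2 (.l 0) (.l 0)) (.n 0 (.l 0) (.l 0))))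
    [(13582204928, 2587885568), (755914244096, 68719476736), (647707754496, 215902584832)] rfl (by decide +kernel)
end

mutual
theorem E2_c0_t30 : CovD 1 gE2 [(12288262144, 1293942784), (755914244096, 68719476736), (1295415508992, 431805169664)] :=
  covD_E kE2_eq (.n 0 (.n 0 (.n 2 (.n 2 (.l 0) (.l 0)) (.n 2 (.l 0) (.l 0))) (.n 2 (.n 2 (.l 0) (.l 0)) (.n 2 (.l 0) (.l 0)))) (.n 2 (.n 2 (.l 0) (.l 0)) (.n 2 (.l 0) (.l 0))))
    [(12288262144, 1293942784), (755914244096, 68719476736), (1295415508992, 431805169664)] rfl (by decide +kernel)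
theorem E2_c0_t31 : CovD 1 gE2 [(14876147712, 1293942784), (755914244096, 68719476736), (1295415508992, 431805169664)] :=
  covD_E kE2_eq (.n 0 (.n 2 (.n 2 (.l 0) (.l 0)) (.n 2 (.l 0) (.l 0))) (.n 2 (.n 2 (.l 0) (.l 0)) (.n 2 (.l 0) (.l 0))))
    [(14876147712, 1293942784), (755914244096, 68719476736), (1295415508992, 431805169664)] rfl (by decide +kernel)
end

mutual
theorem E2_c0_t35 : CovD 1 gE2 [(13582204928, 2587885568), (893353197568, 68719476736), (215902584832, 215902584832)] :=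
  covD_E kE2_eq (.n 2 (.n 2 (.n 2 (.l 1) (.l 1)) (.n 0 (.n 2 (.n 0 (.l 0) (.l 0)) (.l 0)) (.n 2 (.l 0) (.l 0)))) (.n 0 (.n 2 (.n 2 (.l 0) (.l 0)) (.n 0 (.l 0) (.l 0))) (.n 0 (.n 2 (.l 0) (.l 0)) (.n 2 (.l 0) (.l 0)))))
    [(13582204928, 2587885568), (893353197568, 68719476736), (215902584832, 215902584832)] rfl (by decide +kernel)
theorem E2_c0_t36 : CovD 1 gE2 [(13582204928, 2587885568), (893353197568, 68719476736), (647707754496, 215902584832)] :=
  covD_E kE2_eq (.n 0 (.n 0 (.n 2 (.n 2 (.l 0) (.l 0)) (.n 2 (.l 0) (.l 0))) (.n 2 (.n 2 (.l 0) (.l 0)) (.n 0 (.l 0) (.l 0)))) (.n 2 (.n 2 (.l 0) (.l 0)) (.n 2 (.l 0) (.l 0))))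
    [(13582204928, 2587885568), (893353197568, 68719476736), (647707754496, 215902584832)] rfl (by decide +kernel)
end

mutual
theorem E2_c0_t38 : CovD 1 gE2 [(12288262144, 1293942784), (893353197568, 68719476736), (1295415508992, 431805169664)] :=
  covD_E kE2_eq (.n 0 (.n 1 (.n 2 (.n 2 (.l 0) (.l 0)) (.n 2 (.l 0) (.l 0))) (.n 2 (.n 2 (.l 0) (.l 0)) (.n 2 (.l 0) (.l 0)))) (.n 2 (.n 0 (.n 2 (.l 0) (.l 0)) (.n 2 (.l 0) (.l 0))) (.n 2 (.l 0) (.l 0))))
    [(12288262144, 1293942784), (893353197568, 68719476736), (1295415508992, 431805169664)] rfl (by decide +kernel)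
theorem E2_c0_t39 : CovD 1 gE2 [(14876147712, 1293942784), (893353197568, 68719476736), (1295415508992, 431805169664)] :=
  covD_E kE2_eq (.n 0 (.n 2 (.n 2 (.l 0) (.l 0)) (.n 2 (.l 0) (.l 0))) (.n 2 (.n 2 (.l 0) (.l 0)) (.n 2 (.l 0) (.l 0))))
    [(14876147712, 1293942784), (893353197568, 68719476736), (1295415508992, 431805169664)] rfl (by decide +kernel)
end

mutual
theorem E2_c0_t42 : CovD 1 gE2 [(13582204928, 2587885568), (1030792151040, 68719476736), (215902584832, 215902584832)] :=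
  covD_E kE2_eq (.n 2 (.n 2 (.n 2 (.l 1) (.l 1)) (.n 0 (.n 0 (.n 2 (.l 0) (.l 0)) (.n 2 (.l 0) (.l 0))) (.n 2 (.l 0) (.l 0)))) (.n 0 (.n 2 (.n 2 (.l 0) (.l 0)) (.n 0 (.l 0) (.l 0))) (.n 2 (.n 2 (.l 0) (.l 0)) (.n 0 (.l 0) (.l 0)))))
    [(13582204928, 2587885568), (1030792151040, 68719476736), (215902584832, 215902584832)] rfl (by decide +kernel)
theorem E2_c0_t43 : CovD 1 gE2 [(13582204928, 2587885568), (1030792151040, 68719476736), (647707754496, 215902584832)] :=
  covD_E kE2_eq (.n 0 (.n 0 (.n 2 (.n 2 (.l 0) (.l 0)) (.n 2 (.l 0) (.l 0))) (.n 2 (.n 2 (.l 0) (.l 0)) (.n 2 (.l 0) (.l 0)))) (.n 2 (.n 2 (.n 0 (.l 0) (.l 0)) (.l 0)) (.n 2 (.l 0) (.l 0))))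
    [(13582204928, 2587885568), (1030792151040, 68719476736), (647707754496, 215902584832)] rfl (by decide +kernel)
end

mutual
theorem E2_c0_t46 : CovD 1 gE2 [(11641290752, 646971392), (1030792151040, 68719476736), (1295415508992, 431805169664)] :=
  covD_E kE2_eq (.n 0 (.n 2 (.n 0 (.n 2 (.l 0) (.l 0)) (.n 2 (.l 0) (.l 0))) (.n 2 (.l 0) (.l 0))) (.n 2 (.n 2 (.l 0) (.l 0)) (.n 2 (.l 0) (.l 0))))
    [(11641290752, 646971392), (1030792151040, 68719476736), (1295415508992, 431805169664)] rfl (by decide +kernel)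
theorem E2_c0_t47 : CovD 1 gE2 [(12935233536, 646971392), (1030792151040, 68719476736), (1295415508992, 431805169664)] :=
  covD_E kE2_eq (.n 0 (.n 2 (.n 2 (.l 0) (.l 0)) (.n 2 (.l 0) (.l 0))) (.n 2 (.n 2 (.l 0) (.l 0)) (.n 2 (.l 0) (.l 0))))
    [(12935233536, 646971392), (1030792151040, 68719476736), (1295415508992, 431805169664)] rfl (by decide +kernel)
end

theorem E2_c0_t48 : CovD 1 gE2 [(14876147712, 1293942784), (1030792151040, 68719476736), (1295415508992, 431805169664)] :=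
  covD_E kE2_eq (.n 0 (.n 2 (.n 2 (.l 0) (.l 0)) (.n 2 (.l 0) (.l 0))) (.n 2 (.n 2 (.l 0) (.l 0)) (.n 2 (.l 0) (.l 0))))
    [(14876147712, 1293942784), (1030792151040, 68719476736), (1295415508992, 431805169664)] rfl (by decide +kernel)

theorem E2_c0_t5 : CovD 1 gE2 [(13582204928, 2587885568), (274877906944, 274877906944), (323853877248, 107951292416)] :=
  covD_split 0 (by decide +kernel) E2_c0_t6 E2_c0_t7

theorem E2_c0_t3 : CovD 1 gE2 [(13582204928, 2587885568), (274877906944, 274877906944), (215902584832, 215902584832)] :=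
  covD_split 2 (by decide +kernel) E2_c0_t4 E2_c0_t5

theorem E2_c0_t8 : CovD 1 gE2 [(13582204928, 2587885568), (274877906944, 274877906944), (647707754496, 215902584832)] :=
  covD_split 1 (by decide +kernel) E2_c0_t9 E2_c0_t10

theorem E2_c0_t2 : CovD 1 gE2 [(13582204928, 2587885568), (274877906944, 274877906944), (431805169664, 431805169664)] :=
  covD_split 2 (by decide +kernel) E2_c0_t3 E2_c0_t8

theorem E2_c0_t12 : CovD 1 gE2 [(13582204928, 2587885568), (137438953472, 137438953472), (1295415508992, 431805169664)] :=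
  covD_split 1 (by decide +kernel) E2_c0_t13 E2_c0_t14

theorem E2_c0_t15 : CovD 1 gE2 [(13582204928, 2587885568), (412316860416, 137438953472), (1295415508992, 431805169664)] :=
  covD_split 1 (by decide +kernel) E2_c0_t16 E2_c0_t17

theorem E2_c0_t11 : CovD 1 gE2 [(13582204928, 2587885568), (274877906944, 274877906944), (1295415508992, 431805169664)] :=
  covD_split 1 (by decide +kernel) E2_c0_t12 E2_c0_t15

theorem E2_c0_t1 : CovD 1 gE2 [(13582204928, 2587885568), (274877906944, 274877906944), (863610339328, 863610339328)] :=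
  covD_split 2 (by decide +kernel) E2_c0_t2 E2_c0_t11

theorem E2_c0_t21 : CovD 1 gE2 [(13582204928, 2587885568), (618475290624, 68719476736), (431805169664, 431805169664)] :=
  covD_split 2 (by decide +kernel) E2_c0_t22 E2_c0_t23

theorem E2_c0_t20 : CovD 1 gE2 [(13582204928, 2587885568), (618475290624, 68719476736), (863610339328, 863610339328)] :=
  covD_split 2 (by decide +kernel) E2_c0_t21 E2_c0_t24

theorem E2_c0_t26 : CovD 1 gE2 [(13582204928, 2587885568), (755914244096, 68719476736), (431805169664, 431805169664)] :=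
  covD_split 2 (by decide +kernel) E2_c0_t27 E2_c0_t28

theorem E2_c0_t29 : CovD 1 gE2 [(13582204928, 2587885568), (755914244096, 68719476736), (1295415508992, 431805169664)] :=
  covD_split 0 (by decide +kernel) E2_c0_t30 E2_c0_t31

theorem E2_c0_t25 : CovD 1 gE2 [(13582204928, 2587885568), (755914244096, 68719476736), (863610339328, 863610339328)] :=
  covD_split 2 (by decide +kernel) E2_c0_t26 E2_c0_t29

theorem E2_c0_t19 : CovD 1 gE2 [(13582204928, 2587885568), (687194767360, 137438953472), (863610339328, 863610339328)] :=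
  covD_split 1 (by decide +kernel) E2_c0_t20 E2_c0_t25

theorem E2_c0_t34 : CovD 1 gE2 [(13582204928, 2587885568), (893353197568, 68719476736), (431805169664, 431805169664)] :=
  covD_split 2 (by decide +kernel) E2_c0_t35 E2_c0_t36

theorem E2_c0_t37 : CovD 1 gE2 [(13582204928, 2587885568), (893353197568, 68719476736), (1295415508992, 431805169664)] :=
  covD_split 0 (by decide +kernel) E2_c0_t38 E2_c0_t39

theorem E2_c0_t33 : CovD 1 gE2 [(13582204928, 2587885568), (893353197568, 68719476736), (863610339328, 863610339328)] :=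
  covD_split 2 (by decide +kernel) E2_c0_t34 E2_c0_t37

theorem E2_c0_t41 : CovD 1 gE2 [(13582204928, 2587885568), (1030792151040, 68719476736), (431805169664, 431805169664)] :=
  covD_split 2 (by decide +kernel) E2_c0_t42 E2_c0_t43

theorem E2_c0_t45 : CovD 1 gE2 [(12288262144, 1293942784), (1030792151040, 68719476736), (1295415508992, 431805169664)] :=
  covD_split 0 (by decide +kernel) E2_c0_t46 E2_c0_t47

theorem E2_c0_t44 : CovD 1 gE2 [(13582204928, 2587885568), (1030792151040, 68719476736), (1295415508992, 431805169664)] :=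
  covD_split 0 (by decide +kernel) E2_c0_t45 E2_c0_t48

theorem E2_c0_t40 : CovD 1 gE2 [(13582204928, 2587885568), (1030792151040, 68719476736), (863610339328, 863610339328)] :=
  covD_split 2 (by decide +kernel) E2_c0_t41 E2_c0_t44

theorem E2_c0_t32 : CovD 1 gE2 [(13582204928, 2587885568), (962072674304, 137438953472), (863610339328, 863610339328)] :=
  covD_split 1 (by decide +kernel) E2_c0_t33 E2_c0_t40

theorem E2_c0_t18 : CovD 1 gE2 [(13582204928, 2587885568), (824633720832, 274877906944), (863610339328, 863610339328)] :=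
  covD_split 1 (by decide +kernel) E2_c0_t19 E2_c0_t32

theorem E2_c0 : CovD 1 gE2 [(13582204928, 2587885568), (549755813888, 549755813888), (863610339328, 863610339328)] :=
  covD_split 1 (by decide +kernel) E2_c0_t1 E2_c0_t18

end Pool.Agent.helper14.NS.Q68f
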