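import Pool.Agent.helper14.NS.Q68f.Tab
import Pool.Agent.helper14.NR.Share

/-!
Generated: programs and compiled forms.
-/

namespace Pool.Agent.helper14.NS.Q68f

open Pool.Agent.helper31.IA (Z)
open Pool.Agent.helper31.IX (Op XOps runX Cov CovD cov_split covD_split)
open Pool.Agent.helper31.IC (TD)
open Pool.Agent.helper63.RG (reloc)
open Pool.Agent.helper63.NF hiding TD
open Pool.Agent.helper4.NS
open Pool.Agent.helper14.CF (xE covD_E)
open Pool.Agent.helper14.NR (share)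

def p_Z_0 : List Op := [
  .const ⟨1099511627776, 0, 0, 0⟩,
  .scale ⟨2251799813685248, 0, 0, 0⟩ 1,
  .scale ⟨7138504081408, 0, 0, 0⟩ 0,
  .const ⟨0, 601020543533056, 0, 0⟩,
  .add 1 0,
  .mul 0 5,
  .const ⟨7012575346688, 0, 0, 0⟩,
  .add 1 0,
  .mul 9 0,
  .const ⟨4398046511104, 0, 0, 0⟩,
  .add 1 0,
  .mul 11 0,
  .scale ⟨2199023255552, 0, 0, 0⟩ 0,
  .exp 1,
  .neg 2,
  .exp 0,
  .mul 2 2,
  .mul 1 1,
  .mul 0 0,
  .add 2 1,
  .scale ⟨549755813888, 0, 0, 0⟩ 0,
  .scale ⟨2199023255552, 0, 0, 0⟩ 10,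
  .mul 10 10,
  .lt 0 68719476736,
  .scale ⟨9162596898, 0, 0, 0⟩ 0,
  .const ⟨183251937962, 0, 0, 0⟩,
  .add 1 0,
  .mul 0 3,
  .const ⟨1099511627776, 0, 0, 0⟩,
  .add 1 0,
  .const ⟨65536, 0, 0, 0⟩,
  .rball 1 0,
  .mul 9 0,
  .add 18 16,
  .scale ⟨549755813888, 0, 0, 0⟩ 0,
  .mul 2 0,
  .mul 3 3,
  .mul 36 0,
  .mul 2 2,
  .mul 38 0,
  .neg 17,
  .exp 0,
  .add 0 40,
  .pos 0,
  .log 0,
  .const ⟨13589544960, 0, 0, 0⟩,
  .sub 44 0,
  .const ⟨5308579577856, 0, 0, 0⟩,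
  .sub 35 0,
  .mul 0 0,
  .mul 0 1,
  .mul 4 2,
  .mul 5 5,
  .scale ⟨0, 17823865984, 0, 0⟩ 4,
  .scale ⟨143691776, 0, 0, 0⟩ 4,
  .add 1 0,
  .scale ⟨0, 27790656, 0, 0⟩ 5,
  .add 1 0,
  .scale ⟨4543914807744, 0, 0, 0⟩ 11,
  .add 1 0,
  .scale ⟨293715224768, 0, 0, 0⟩ 8,
  .add 1 0,
  .scale ⟨0, 28255579397568, 0, 0⟩ 9,
  .add 1 0,
  .const ⟨620962274880, 0, 0, 0⟩,
  .add 1 0,
  .scale ⟨1678391936, 0, 0, 0⟩ 17,
  .scale ⟨0, 10569792, 0, 0⟩ 17,
  .add 1 0,
  .scale ⟨0, 237759469632, 0, 0⟩ 22,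
  .add 1 0,
  .scale ⟨0, 8511755648, 0, 0⟩ 19,
  .add 1 0,
  .const ⟨0, 6297958528, 0, 0⟩,
  .add 1 0,
  .scale ⟨0, 94504960, 0, 0⟩ 26,
  .scale ⟨448896, 0, 0, 0⟩ 26,
  .add 1 0,
  .scale ⟨5448361664, 0, 0, 0⟩ 31,
  .add 1 0,
  .const ⟨374418304, 0, 0, 0⟩,
  .add 1 0,
  .scale ⟨2980672, 0, 0, 0⟩ 33,
  .scale ⟨0, 56245952, 0, 0⟩ 36,
  .add 1 0,
  .const ⟨0, 15738944, 0, 0⟩,
  .add 1 0,
  .scale ⟨0, 40512, 0, 0⟩ 38,
  .const ⟨432640, 0, 0, 0⟩,
  .add 1 0,
  .scale ⟨0, 0, 1099511627776, 0⟩ 90,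
  .scale ⟨549755813888, 0, 0, 0⟩ 0,
  .add 0 89,
  .inv 0,
  .mul 3 0,
  .scale ⟨726765931200192, 0, 0, 0⟩ 0,
  .const ⟨0, 1240899072102400, 0, 0⟩,
  .add 1 0,
  .mul 3 0,
  .const ⟨1339366556953792, 0, 0, 0⟩,
  .add 1 0,
  .mul 6 0,
  .const ⟨0, 1048120203344704, 0, 0⟩,
  .add 1 0,
  .mul 9 0,
  .const ⟨554015885328576, 0, 0, 0⟩,
  .add 1 0,
  .mul 12 0,
  .const ⟨0, 253567101878528, 0, 0⟩,
  .add 1 0,
  .mul 15 0,
  .scale ⟨4286977206656, 0, 0, 0⟩ 62,
  .scale ⟨1323675132634048, 0, 0, 0⟩ 65,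
  .add 1 0,
  .const ⟨73032514797952, 0, 0, 0⟩,
  .add 1 0,
  .add 5 0,
  .mul 22 0,
  .scale ⟨0, 1227011303552, 0, 0⟩ 69,
  .scale ⟨0, 306849460188800, 0, 0⟩ 72,
  .add 1 0,
  .const ⟨0, 21195872609984, 0, 0⟩,
  .add 1 0,
  .add 5 0,
  .mul 29 0,
  .scale ⟨1709122944832, 0, 0, 0⟩ 76,
  .scale ⟨536868184326016, 0, 0, 0⟩ 79,
  .add 1 0,
  .const ⟨3291196431296, 0, 0, 0⟩,
  .add 1 0,
  .add 5 0,
  .mul 36 0,
  .scale ⟨0, 63411912384, 0, 0⟩ 83,
  .scale ⟨0, 4181896817920, 0, 0⟩ 86,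
  .add 1 0,
  .const ⟨245600152832, 0, 0, 0⟩,
  .add 1 0,
  .add 5 0,
  .mul 43 0,
  .scale ⟨197270143296, 0, 0, 0⟩ 90,
  .scale ⟨39674865006912, 0, 0, 0⟩ 93,
  .add 1 0,
  .const ⟨1052096917376, 0, 0, 0⟩,
  .add 1 0,
  .add 5 0,
  .mul 50 0,
  .scale ⟨0, 158183027520, 0, 0⟩ 97,
  .scale ⟨0, 33997875177408, 0, 0⟩ 100,
  .add 1 0,
  .const ⟨3711016808832, 0, 0, 0⟩,
  .add 1 0,
  .add 5 0,
  .mul 57 0,
  .scale ⟨81690191808, 0, 0, 0⟩ 104,
  .scale ⟨0, 1040714688, 0, 0⟩ 104,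
  .add 1 0,
  .scale ⟨27389892833088, 0, 0, 0⟩ 109,
  .add 1 0,
  .scale ⟨5482278688960, 0, 0, 0⟩ 106,
  .add 1 0,
  .scale ⟨0, 147540632937792, 0, 0⟩ 107,
  .add 1 0,
  .const ⟨320699424384, 0, 0, 0⟩,
  .add 1 0,
  .mul 0 151,
  .add 12 0,
  .mul 164 164,
  .scale ⟨5703716569088, 0, 0, 0⟩ 0,
  .const ⟨1726576852992, 0, 0, 0⟩,
  .add 1 0,
  .scale ⟨4398046511104, 0, 0, 0⟩ 157,
  .mul 76 1,
  .scale ⟨4398046511104, 0, 0, 0⟩ 0,
  .add 2 0,
  .scale ⟨0, 156762112, 0, 0⟩ 125,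
  .scale ⟨6668681216, 0, 0, 0⟩ 125,
  .add 1 0,
  .scale ⟨4273471488, 0, 0, 0⟩ 126,
  .add 1 0,
  .scale ⟨228789714944, 0, 0, 0⟩ 132,
  .add 1 0,
  .scale ⟨12096805011456, 0, 0, 0⟩ 129,
  .add 1 0,
  .const ⟨196975656960, 0, 0, 0⟩,
  .add 1 0,
  .scale ⟨5085241278464, 0, 0, 0⟩ 170,
  .neg 0,
  .exp 0,
  .mul 3 0,
  .mul 0 15,
  .scale ⟨659814350848, 0, 0, 0⟩ 16,
  .add 0 188,
  .pos 0,
  .inv 0,
  .mul 3 0,
  .neg 28,
  .exp 0,
  .add 0 193,
  .pos 0,
  .log 0,
  .mul 4 199,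
  .sub 196 0,
  .pos 0,
  .log 0,
  .mul 5 2,
  .add 0 199,
  .pos 0,
  .log 0,
  .sub 6 0,
  .add 192 160,
  .sub 1 0,
  .mul 0 205,
  .exp 0,
  .sub 5 8,
  .add 0 44,
  .mul 0 209,
  .exp 0,
  .mul 179 179,
  .scale ⟨274877906944, 0, 0, 0⟩ 0,
  .mul 48 0,
  .scale ⟨1649267441664, 0, 0, 0⟩ 0,
  .add 0 214,
  .mul 48 0,
  .mul 219 0,
  .scale ⟨0, 0, 1099511627776, 0⟩ 0,
  .mul 0 0,
  .sub 7 0,
  .mul 14 14,
  .mul 0 1,
  .mul 58 0,
  .scale ⟨4398046511104, 0, 0, 0⟩ 0,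
  .sub 224 0,
  .pos 0,
  .log 0,
  .scale ⟨549755813888, 0, 0, 0⟩ 0,
  .exp 0,
  .mul 229 7,
  .mul 17 19,
  .scale ⟨2199023255552, 0, 0, 0⟩ 10,
  .add 1 0,
  .mul 3 0,
  .mul 15 5,
  .mul 28 0,
  .add 2 0,
  .mul 26 0,
  .scale ⟨4398046511104, 0, 0, 0⟩ 0,
  .mul 239 0,
  .add 0 239,
  .pos 0,
  .log 0,
  .scale ⟨549755813888, 0, 0, 0⟩ 0,
  .exp 0,
  .add 0 243,
  .pos 0,
  .inv 0,
  .mul 7 0,
  .scale ⟨549755813888, 0, 0, 0⟩ 210,
  .sub 1 0,
  .const ⟨11170136195072, 0, 0, 0⟩,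
  .add 212 0,
  .pos 0,
  .mul 2 2,
  .sub 0 214,
  .inv 2,
  .mul 1 0,
  .lt 0 1099510579200,
  .mul 255 48,
  .mul 0 37,
  .scale ⟨2199023255552, 0, 0, 0⟩ 0,
  .sub 29 0,
  .pos 0,
  .add 245 243,
  .mul 41 0,
  .mul 261 0,
  .add 0 241,
  .pos 0,
  .inv 0,
  .mul 243 3,
  .add 0 226,
  .mul 2 0,
  .pos 267,
  .inv 267,
  .sub 19 1,
  .mul 0 1,
  .add 9 235,
  .mul 253 8,
  .inv 1,
  .mul 1 0,
  .mul 0 4,
  .mul 275 0,
  .add 0 275,
  .scale ⟨1377959936, 0, 0, 0⟩ 230,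
  .scale ⟨16582705152, 0, 0, 0⟩ 230,
  .add 1 0,
  .scale ⟨6850084864, 0, 0, 0⟩ 231,
  .add 1 0,
  .scale ⟨16461687422976, 0, 0, 0⟩ 237,
  .add 1 0,
  .scale ⟨4096638844928, 0, 0, 0⟩ 234,
  .add 1 0,
  .const ⟨726277816320, 0, 0, 0⟩,
  .add 1 0,
  .scale ⟨2199023255552, 0, 0, 0⟩ 13,
  .inv 12,
  .mul 16 0,
  .mul 2 0,
  .mul 275 275,
  .inv 5,
  .mul 1 0,
  .mul 3 0,
  .lt 0 1099510579200,
  .mul 296 47,
  .add 0 276,
  .pos 0,
  .inv 0,
  .mul 281 0,
  .sub 51 265,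
  .add 283 2,
  .mul 1 0,
  .mul 3 0,
  .mul 286 269,
  .scale ⟨2199023255552, 0, 0, 0⟩ 0,
  .add 2 0,
  .scale ⟨0, 184632054120448, 0, 0⟩ 262,
  .const ⟨0, 4563939622912, 0, 0⟩,
  .add 1 0,
  .sub 3 0,
  .pos 0,
  .inv 0,
  .scale ⟨62505594978304, 0, 0, 0⟩ 0,
  .add 2 0,
  .pos 0,
  .inv 0,
  .scale ⟨113760263680, 0, 0, 0⟩ 268,
  .scale ⟨0, 41332084123904, 0, 0⟩ 271,
  .add 1 0,
  .const ⟨0, 419118063872, 0, 0⟩,
  .add 1 0,
  .scale ⟨608814717952, 0, 0, 0⟩ 273,
  .scale ⟨0, 137868858257664, 0, 0⟩ 276,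
  .add 1 0,
  .const ⟨0, 2342272157440, 0, 0⟩,
  .add 1 0,
  .mul 13 0,
  .add 6 0,
  .mul 0 12,
  .scale ⟨64, 0, 0, 0⟩ 21,
  .const ⟨0, 7296, 0, 0⟩,
  .add 1 0,
  .mul 24 0,
  .add 0 244,
  .mul 26 0,
  .add 0 249,
  .mul 28 0,
  .add 0 256,
  .mul 30 0,
  .add 0 265,
  .mul 32 0,
  .add 12 276,
  .add 1 0,
  .mul 38 0,
  .add 0 321,
  .neg 0,
  .exp 0,
  .add 0 345,
  .pos 0,
  .log 0,
  .add 184 152,
  .sub 0 1,
  .scale ⟨549755813888, 0, 0, 0⟩ 108,
  .mul 0 83,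
  .sub 2 0,
  .exp 0,
  .scale ⟨55987732480, 0, 0, 0⟩ 261,
  .const ⟨0, 23741136896, 0, 0⟩,
  .add 1 0,
  .mul 264 0,
  .const ⟨36688887808, 0, 0, 0⟩,
  .add 1 0,
  .mul 267 0,
  .scale ⟨597950464, 0, 0, 0⟩ 314,
  .scale ⟨274524340224, 0, 0, 0⟩ 317,
  .add 1 0,
  .const ⟨6109134848, 0, 0, 0⟩,
  .add 1 0,
  .add 5 0,
  .mul 274 0,
  .scale ⟨0, 2944598016, 0, 0⟩ 321,
  .scale ⟨3764668858368, 0, 0, 0⟩ 324,
  .add 1 0,
  .const ⟨54149185536, 0, 0, 0⟩,
  .add 1 0,
  .add 5 0,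
  .mul 281 0,
  .scale ⟨13767737344, 0, 0, 0⟩ 328,
  .scale ⟨399638528, 0, 0, 0⟩ 328,
  .add 1 0,
  .scale ⟨4333197000704, 0, 0, 0⟩ 333,
  .add 1 0,
  .scale ⟨1817750536192, 0, 0, 0⟩ 330,
  .add 1 0,
  .scale ⟨168605433135104, 0, 0, 0⟩ 331,
  .add 1 0,
  .const ⟨1123216195584, 0, 0, 0⟩,
  .add 1 0,
  .add 11 0,
  .inv 199,
  .mul 0 198,
  .scale ⟨989453090816, 0, 0, 0⟩ 140,
  .add 0 389,
  .pos 0,
  .scale ⟨0, 54001664, 0, 0⟩ 344,
  .scale ⟨0, 21106458624, 0, 0⟩ 347,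
  .add 1 0,
  .scale ⟨0, 4347985920, 0, 0⟩ 344,
  .add 1 0,
  .const ⟨43718803456, 0, 0, 0⟩,
  .add 1 0,
  .scale ⟨1374389534720, 0, 0, 0⟩ 385,
  .neg 0,
  .exp 0,
  .mul 3 0,
  .scale ⟨2199023255552, 0, 0, 0⟩ 0,
  .add 154 368,
  .mul 1 0,
  .inv 14,
  .mul 1 0,
  .const ⟨0, 0, 0, 0⟩,
  .mul 21 54,
  .mul 0 63,
  .mul 3 21,
  .mul 1 0,
  .rball 4 0,
  .sub 412 26,
  .mul 417 0,
  .sub 414 61,
  .mul 0 27,
  .mul 30 0,
  .add 3 0,
  .add 0 6,
  .lt 0 1099510579200]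

set_option maxRecDepth 1000000 in
noncomputable def c_Z_0 {α : Type} (cst : Z → α) (add sub mul : α → α → α) (scale : Z → α → α)
    (neg inv exp log : α → α) (ok : α → Bool) (isPos : Nat → α → Bool) (isLt : α → Nat → Bool)
    (ball : Nat → α → α) (rball : α → α → α) : List α → Bool
  | [x0, x1, x2, x3] =>
  let v0 := cst ⟨1099511627776, 0, 0, 0⟩; ok v0 && (
  let v1 := scale ⟨2251799813685248, 0, 0, 0⟩ x0; ok v1 && (
  let v2 := scale ⟨7138504081408, 0, 0, 0⟩ v1; ok v2 && (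
  let v3 := cst ⟨0, 601020543533056, 0, 0⟩; ok v3 && (
  let v4 := add v2 v3; ok v4 && (
  let v5 := mul v4 x0; ok v5 && (
  let v6 := cst ⟨7012575346688, 0, 0, 0⟩; ok v6 && (
  let v7 := add v5 v6; ok v7 && (
  let v8 := mul x1 v7; ok v8 && (
  let v9 := cst ⟨4398046511104, 0, 0, 0⟩; ok v9 && (
  let v10 := add v8 v9; ok v10 && (
  let v11 := mul x0 v10; ok v11 && (
  let v12 := scale ⟨2199023255552, 0, 0, 0⟩ v11; ok v12 && (
  let v13 := exp v11; ok v13 && (
  let v14 := neg v11; ok v14 && (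
  let v15 := exp v14; ok v15 && (
  let v16 := mul v13 v13; ok v16 && (
  let v17 := mul v15 v15; ok v17 && (
  let v18 := mul v17 v17; ok v18 && (
  let v19 := add v16 v17; ok v19 && (
  let v20 := scale ⟨549755813888, 0, 0, 0⟩ v19; ok v20 && (
  let v21 := scale ⟨2199023255552, 0, 0, 0⟩ v10; ok v21 && (
  let v22 := mul v11 v11; ok v22 && (
  isLt v22 68719476736 && (
  let v23 := scale ⟨9162596898, 0, 0, 0⟩ v22; ok v23 && (
  let v24 := cst ⟨183251937962, 0, 0, 0⟩; ok v24 && (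
  let v25 := add v23 v24; ok v25 && (
  let v26 := mul v25 v22; ok v26 && (
  let v27 := cst ⟨1099511627776, 0, 0, 0⟩; ok v27 && (
  let v28 := add v26 v27; ok v28 && (
  let v29 := cst ⟨65536, 0, 0, 0⟩; ok v29 && (
  let v30 := rball v28 v29; ok v30 && (
  let v31 := mul v21 v30; ok v31 && (
  let v32 := add v13 v15; ok v32 && (
  let v33 := scale ⟨549755813888, 0, 0, 0⟩ v32; ok v33 && (
  let v34 := mul v31 v33; ok v34 && (
  let v35 := mul v31 v31; ok v35 && (
  let v36 := mul x0 v35; ok v36 && (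
  let v37 := mul v34 v34; ok v37 && (
  let v38 := mul x0 v37; ok v38 && (
  let v39 := neg v21; ok v39 && (
  let v40 := exp v39; ok v40 && (
  let v41 := add v40 v0; ok v41 && (
  isPos 3 v41 && (
  let v42 := log v41; ok v42 && (
  let v43 := cst ⟨13589544960, 0, 0, 0⟩; ok v43 && (
  let v44 := sub x0 v43; ok v44 && (
  let v45 := cst ⟨5308579577856, 0, 0, 0⟩; ok v45 && (
  let v46 := sub v10 v45; ok v46 && (
  let v47 := mul v46 v46; ok v47 && (
  let v48 := mul v47 v46; ok v48 && (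
  let v49 := mul v44 v46; ok v49 && (
  let v50 := mul v44 v44; ok v50 && (
  let v51 := scale ⟨0, 17823865984, 0, 0⟩ v46; ok v51 && (
  let v52 := scale ⟨143691776, 0, 0, 0⟩ v47; ok v52 && (
  let v53 := add v51 v52; ok v53 && (
  let v54 := scale ⟨0, 27790656, 0, 0⟩ v48; ok v54 && (
  let v55 := add v53 v54; ok v55 && (
  let v56 := scale ⟨4543914807744, 0, 0, 0⟩ v44; ok v56 && (
  let v57 := add v55 v56; ok v57 && (
  let v58 := scale ⟨293715224768, 0, 0, 0⟩ v49; ok v58 && (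
  let v59 := add v57 v58; ok v59 && (
  let v60 := scale ⟨0, 28255579397568, 0, 0⟩ v50; ok v60 && (
  let v61 := add v59 v60; ok v61 && (
  let v62 := cst ⟨620962274880, 0, 0, 0⟩; ok v62 && (
  let v63 := add v61 v62; ok v63 && (
  let v64 := scale ⟨1678391936, 0, 0, 0⟩ v46; ok v64 && (
  let v65 := scale ⟨0, 10569792, 0, 0⟩ v47; ok v65 && (
  let v66 := add v64 v65; ok v66 && (
  let v67 := scale ⟨0, 237759469632, 0, 0⟩ v44; ok v67 && (
  let v68 := add v66 v67; ok v68 && (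
  let v69 := scale ⟨0, 8511755648, 0, 0⟩ v49; ok v69 && (
  let v70 := add v68 v69; ok v70 && (
  let v71 := cst ⟨0, 6297958528, 0, 0⟩; ok v71 && (
  let v72 := add v70 v71; ok v72 && (
  let v73 := scale ⟨0, 94504960, 0, 0⟩ v46; ok v73 && (
  let v74 := scale ⟨448896, 0, 0, 0⟩ v47; ok v74 && (
  let v75 := add v73 v74; ok v75 && (
  let v76 := scale ⟨5448361664, 0, 0, 0⟩ v44; ok v76 && (
  let v77 := add v75 v76; ok v77 && (
  let v78 := cst ⟨374418304, 0, 0, 0⟩; ok v78 && (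
  let v79 := add v77 v78; ok v79 && (
  let v80 := scale ⟨2980672, 0, 0, 0⟩ v46; ok v80 && (
  let v81 := scale ⟨0, 56245952, 0, 0⟩ v44; ok v81 && (
  let v82 := add v80 v81; ok v82 && (
  let v83 := cst ⟨0, 15738944, 0, 0⟩; ok v83 && (
  let v84 := add v82 v83; ok v84 && (
  let v85 := scale ⟨0, 40512, 0, 0⟩ v46; ok v85 && (
  let v86 := cst ⟨432640, 0, 0, 0⟩; ok v86 && (
  let v87 := add v85 v86; ok v87 && (
  let v88 := scale ⟨0, 0, 1099511627776, 0⟩ x2; ok v88 && (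
  let v89 := scale ⟨549755813888, 0, 0, 0⟩ v88; ok v89 && (
  let v90 := add v89 v0; ok v90 && (
  let v91 := inv v90; ok v91 && (
  let v92 := mul v88 v91; ok v92 && (
  let v93 := scale ⟨726765931200192, 0, 0, 0⟩ v92; ok v93 && (
  let v94 := cst ⟨0, 1240899072102400, 0, 0⟩; ok v94 && (
  let v95 := add v93 v94; ok v95 && (
  let v96 := mul v92 v95; ok v96 && (
  let v97 := cst ⟨1339366556953792, 0, 0, 0⟩; ok v97 && (
  let v98 := add v96 v97; ok v98 && (
  let v99 := mul v92 v98; ok v99 && (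
  let v100 := cst ⟨0, 1048120203344704, 0, 0⟩; ok v100 && (
  let v101 := add v99 v100; ok v101 && (
  let v102 := mul v92 v101; ok v102 && (
  let v103 := cst ⟨554015885328576, 0, 0, 0⟩; ok v103 && (
  let v104 := add v102 v103; ok v104 && (
  let v105 := mul v92 v104; ok v105 && (
  let v106 := cst ⟨0, 253567101878528, 0, 0⟩; ok v106 && (
  let v107 := add v105 v106; ok v107 && (
  let v108 := mul v92 v107; ok v108 && (
  let v109 := scale ⟨4286977206656, 0, 0, 0⟩ v46; ok v109 && (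
  let v110 := scale ⟨1323675132634048, 0, 0, 0⟩ v44; ok v110 && (
  let v111 := add v109 v110; ok v111 && (
  let v112 := cst ⟨73032514797952, 0, 0, 0⟩; ok v112 && (
  let v113 := add v111 v112; ok v113 && (
  let v114 := add v108 v113; ok v114 && (
  let v115 := mul v92 v114; ok v115 && (
  let v116 := scale ⟨0, 1227011303552, 0, 0⟩ v46; ok v116 && (
  let v117 := scale ⟨0, 306849460188800, 0, 0⟩ v44; ok v117 && (
  let v118 := add v116 v117; ok v118 && (
  let v119 := cst ⟨0, 21195872609984, 0, 0⟩; ok v119 && (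
  let v120 := add v118 v119; ok v120 && (
  let v121 := add v115 v120; ok v121 && (
  let v122 := mul v92 v121; ok v122 && (
  let v123 := scale ⟨1709122944832, 0, 0, 0⟩ v46; ok v123 && (
  let v124 := scale ⟨536868184326016, 0, 0, 0⟩ v44; ok v124 && (
  let v125 := add v123 v124; ok v125 && (
  let v126 := cst ⟨3291196431296, 0, 0, 0⟩; ok v126 && (
  let v127 := add v125 v126; ok v127 && (
  let v128 := add v122 v127; ok v128 && (
  let v129 := mul v92 v128; ok v129 && (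
  let v130 := scale ⟨0, 63411912384, 0, 0⟩ v46; ok v130 && (
  let v131 := scale ⟨0, 4181896817920, 0, 0⟩ v44; ok v131 && (
  let v132 := add v130 v131; ok v132 && (
  let v133 := cst ⟨245600152832, 0, 0, 0⟩; ok v133 && (
  let v134 := add v132 v133; ok v134 && (
  let v135 := add v129 v134; ok v135 && (
  let v136 := mul v92 v135; ok v136 && (
  let v137 := scale ⟨197270143296, 0, 0, 0⟩ v46; ok v137 && (
  let v138 := scale ⟨39674865006912, 0, 0, 0⟩ v44; ok v138 && (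
  let v139 := add v137 v138; ok v139 && (
  let v140 := cst ⟨1052096917376, 0, 0, 0⟩; ok v140 && (
  let v141 := add v139 v140; ok v141 && (
  let v142 := add v136 v141; ok v142 && (
  let v143 := mul v92 v142; ok v143 && (
  let v144 := scale ⟨0, 158183027520, 0, 0⟩ v46; ok v144 && (
  let v145 := scale ⟨0, 33997875177408, 0, 0⟩ v44; ok v145 && (
  let v146 := add v144 v145; ok v146 && (
  let v147 := cst ⟨3711016808832, 0, 0, 0⟩; ok v147 && (
  let v148 := add v146 v147; ok v148 && (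
  let v149 := add v143 v148; ok v149 && (
  let v150 := mul v92 v149; ok v150 && (
  let v151 := scale ⟨81690191808, 0, 0, 0⟩ v46; ok v151 && (
  let v152 := scale ⟨0, 1040714688, 0, 0⟩ v47; ok v152 && (
  let v153 := add v151 v152; ok v153 && (
  let v154 := scale ⟨27389892833088, 0, 0, 0⟩ v44; ok v154 && (
  let v155 := add v153 v154; ok v155 && (
  let v156 := scale ⟨5482278688960, 0, 0, 0⟩ v49; ok v156 && (
  let v157 := add v155 v156; ok v157 && (
  let v158 := scale ⟨0, 147540632937792, 0, 0⟩ v50; ok v158 && (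
  let v159 := add v157 v158; ok v159 && (
  let v160 := cst ⟨320699424384, 0, 0, 0⟩; ok v160 && (
  let v161 := add v159 v160; ok v161 && (
  let v162 := mul v161 v10; ok v162 && (
  let v163 := add v150 v162; ok v163 && (
  let v164 := mul x0 x0; ok v164 && (
  let v165 := scale ⟨5703716569088, 0, 0, 0⟩ v164; ok v165 && (
  let v166 := cst ⟨1726576852992, 0, 0, 0⟩; ok v166 && (
  let v167 := add v165 v166; ok v167 && (
  let v168 := scale ⟨4398046511104, 0, 0, 0⟩ v10; ok v168 && (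
  let v169 := mul v92 v167; ok v169 && (
  let v170 := scale ⟨4398046511104, 0, 0, 0⟩ v169; ok v170 && (
  let v171 := add v168 v170; ok v171 && (
  let v172 := scale ⟨0, 156762112, 0, 0⟩ v46; ok v172 && (
  let v173 := scale ⟨6668681216, 0, 0, 0⟩ v47; ok v173 && (
  let v174 := add v172 v173; ok v174 && (
  let v175 := scale ⟨4273471488, 0, 0, 0⟩ v48; ok v175 && (
  let v176 := add v174 v175; ok v176 && (
  let v177 := scale ⟨228789714944, 0, 0, 0⟩ v44; ok v177 && (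
  let v178 := add v176 v177; ok v178 && (
  let v179 := scale ⟨12096805011456, 0, 0, 0⟩ v49; ok v179 && (
  let v180 := add v178 v179; ok v180 && (
  let v181 := cst ⟨196975656960, 0, 0, 0⟩; ok v181 && (
  let v182 := add v180 v181; ok v182 && (
  let v183 := scale ⟨5085241278464, 0, 0, 0⟩ v12; ok v183 && (
  let v184 := neg v183; ok v184 && (
  let v185 := exp v184; ok v185 && (
  let v186 := mul v182 v185; ok v186 && (
  let v187 := mul v186 v171; ok v187 && (
  let v188 := scale ⟨659814350848, 0, 0, 0⟩ v171; ok v188 && (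
  let v189 := add v188 v0; ok v189 && (
  isPos 3 v189 && (
  let v190 := inv v189; ok v190 && (
  let v191 := mul v187 v190; ok v191 && (
  let v192 := neg v163; ok v192 && (
  let v193 := exp v192; ok v193 && (
  let v194 := add v193 v0; ok v194 && (
  isPos 3 v194 && (
  let v195 := log v194; ok v195 && (
  let v196 := mul v191 x3; ok v196 && (
  let v197 := sub v0 v196; ok v197 && (
  isPos 3 v197 && (
  let v198 := log v197; ok v198 && (
  let v199 := mul v193 v196; ok v199 && (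
  let v200 := add v199 v0; ok v200 && (
  isPos 3 v200 && (
  let v201 := log v200; ok v201 && (
  let v202 := sub v195 v201; ok v202 && (
  let v203 := add v10 v42; ok v203 && (
  let v204 := sub v202 v203; ok v204 && (
  let v205 := mul v204 x0; ok v205 && (
  let v206 := exp v205; ok v206 && (
  let v207 := sub v201 v198; ok v207 && (
  let v208 := add v207 v163; ok v208 && (
  let v209 := mul v208 x0; ok v209 && (
  let v210 := exp v209; ok v210 && (
  let v211 := mul v31 v31; ok v211 && (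
  let v212 := scale ⟨274877906944, 0, 0, 0⟩ v211; ok v212 && (
  let v213 := mul v164 v212; ok v213 && (
  let v214 := scale ⟨1649267441664, 0, 0, 0⟩ v213; ok v214 && (
  let v215 := add v214 v0; ok v215 && (
  let v216 := mul v167 v215; ok v216 && (
  let v217 := mul x2 v216; ok v217 && (
  let v218 := scale ⟨0, 0, 1099511627776, 0⟩ v217; ok v218 && (
  let v219 := mul v218 v218; ok v219 && (
  let v220 := sub v212 v219; ok v220 && (
  let v221 := mul v206 v206; ok v221 && (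
  let v222 := mul v221 v220; ok v222 && (
  let v223 := mul v164 v222; ok v223 && (
  let v224 := scale ⟨4398046511104, 0, 0, 0⟩ v223; ok v224 && (
  let v225 := sub v0 v224; ok v225 && (
  isPos 3 v225 && (
  let v226 := log v225; ok v226 && (
  let v227 := scale ⟨549755813888, 0, 0, 0⟩ v226; ok v227 && (
  let v228 := exp v227; ok v228 && (
  let v229 := mul x0 v221; ok v229 && (
  let v230 := mul v212 v210; ok v230 && (
  let v231 := scale ⟨2199023255552, 0, 0, 0⟩ v220; ok v231 && (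
  let v232 := add v230 v231; ok v232 && (
  let v233 := mul v229 v232; ok v233 && (
  let v234 := mul v218 v228; ok v234 && (
  let v235 := mul v206 v234; ok v235 && (
  let v236 := add v233 v235; ok v236 && (
  let v237 := mul v210 v236; ok v237 && (
  let v238 := scale ⟨4398046511104, 0, 0, 0⟩ v237; ok v238 && (
  let v239 := mul x0 v238; ok v239 && (
  let v240 := add v239 v0; ok v240 && (
  isPos 3 v240 && (
  let v241 := log v240; ok v241 && (
  let v242 := scale ⟨549755813888, 0, 0, 0⟩ v241; ok v242 && (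
  let v243 := exp v242; ok v243 && (
  let v244 := add v243 v0; ok v244 && (
  isPos 3 v244 && (
  let v245 := inv v244; ok v245 && (
  let v246 := mul v238 v245; ok v246 && (
  let v247 := scale ⟨549755813888, 0, 0, 0⟩ v36; ok v247 && (
  let v248 := sub v246 v247; ok v248 && (
  let v249 := cst ⟨11170136195072, 0, 0, 0⟩; ok v249 && (
  let v250 := add v37 v249; ok v250 && (
  isPos 3 v250 && (
  let v251 := mul v248 v248; ok v251 && (
  let v252 := sub v251 v37; ok v252 && (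
  let v253 := inv v250; ok v253 && (
  let v254 := mul v252 v253; ok v254 && (
  isLt v254 1099510579200 && (
  let v255 := mul x0 v206; ok v255 && (
  let v256 := mul v255 v218; ok v256 && (
  let v257 := scale ⟨2199023255552, 0, 0, 0⟩ v256; ok v257 && (
  let v258 := sub v228 v257; ok v258 && (
  isPos 3 v258 && (
  let v259 := add v13 v15; ok v259 && (
  let v260 := mul v218 v259; ok v260 && (
  let v261 := mul x0 v260; ok v261 && (
  let v262 := add v261 v20; ok v262 && (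
  isPos 3 v262 && (
  let v263 := inv v262; ok v263 && (
  let v264 := mul v20 v260; ok v264 && (
  let v265 := add v264 v38; ok v265 && (
  let v266 := mul v263 v265; ok v266 && (
  isPos 3 x0 && (
  let v267 := inv x0; ok v267 && (
  let v268 := sub v248 v266; ok v268 && (
  let v269 := mul v268 v267; ok v269 && (
  let v270 := add v260 v34; ok v270 && (
  let v271 := mul v17 v262; ok v271 && (
  let v272 := inv v270; ok v272 && (
  let v273 := mul v271 v272; ok v273 && (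
  let v274 := mul v273 v269; ok v274 && (
  let v275 := mul x0 v274; ok v275 && (
  let v276 := add v275 v0; ok v276 && (
  let v277 := scale ⟨1377959936, 0, 0, 0⟩ v46; ok v277 && (
  let v278 := scale ⟨16582705152, 0, 0, 0⟩ v47; ok v278 && (
  let v279 := add v277 v278; ok v279 && (
  let v280 := scale ⟨6850084864, 0, 0, 0⟩ v48; ok v280 && (
  let v281 := add v279 v280; ok v281 && (
  let v282 := scale ⟨16461687422976, 0, 0, 0⟩ v44; ok v282 && (
  let v283 := add v281 v282; ok v283 && (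
  let v284 := scale ⟨4096638844928, 0, 0, 0⟩ v49; ok v284 && (
  let v285 := add v283 v284; ok v285 && (
  let v286 := cst ⟨726277816320, 0, 0, 0⟩; ok v286 && (
  let v287 := add v285 v286; ok v287 && (
  let v288 := scale ⟨2199023255552, 0, 0, 0⟩ v274; ok v288 && (
  let v289 := inv v276; ok v289 && (
  let v290 := mul v273 v289; ok v290 && (
  let v291 := mul v288 v290; ok v291 && (
  let v292 := mul v16 v16; ok v292 && (
  let v293 := inv v287; ok v293 && (
  let v294 := mul v292 v293; ok v294 && (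
  let v295 := mul v291 v294; ok v295 && (
  isLt v295 1099510579200 && (
  let v296 := mul x0 v248; ok v296 && (
  let v297 := add v296 v20; ok v297 && (
  isPos 3 v297 && (
  let v298 := inv v297; ok v298 && (
  let v299 := mul v17 v298; ok v299 && (
  let v300 := sub v248 v34; ok v300 && (
  let v301 := add v17 v298; ok v301 && (
  let v302 := mul v300 v301; ok v302 && (
  let v303 := mul v299 v302; ok v303 && (
  let v304 := mul v17 v34; ok v304 && (
  let v305 := scale ⟨2199023255552, 0, 0, 0⟩ v304; ok v305 && (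
  let v306 := add v303 v305; ok v306 && (
  let v307 := scale ⟨0, 184632054120448, 0, 0⟩ v44; ok v307 && (
  let v308 := cst ⟨0, 4563939622912, 0, 0⟩; ok v308 && (
  let v309 := add v307 v308; ok v309 && (
  let v310 := sub v306 v309; ok v310 && (
  isPos 3 v310 && (
  let v311 := inv v310; ok v311 && (
  let v312 := scale ⟨62505594978304, 0, 0, 0⟩ v311; ok v312 && (
  let v313 := add v310 v312; ok v313 && (
  isPos 3 v313 && (
  let v314 := inv v313; ok v314 && (
  let v315 := scale ⟨113760263680, 0, 0, 0⟩ v46; ok v315 && (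
  let v316 := scale ⟨0, 41332084123904, 0, 0⟩ v44; ok v316 && (
  let v317 := add v315 v316; ok v317 && (
  let v318 := cst ⟨0, 419118063872, 0, 0⟩; ok v318 && (
  let v319 := add v317 v318; ok v319 && (
  let v320 := scale ⟨608814717952, 0, 0, 0⟩ v46; ok v320 && (
  let v321 := scale ⟨0, 137868858257664, 0, 0⟩ v44; ok v321 && (
  let v322 := add v320 v321; ok v322 && (
  let v323 := cst ⟨0, 2342272157440, 0, 0⟩; ok v323 && (
  let v324 := add v322 v323; ok v324 && (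
  let v325 := mul v311 v324; ok v325 && (
  let v326 := add v319 v325; ok v326 && (
  let v327 := mul v326 v314; ok v327 && (
  let v328 := scale ⟨64, 0, 0, 0⟩ v306; ok v328 && (
  let v329 := cst ⟨0, 7296, 0, 0⟩; ok v329 && (
  let v330 := add v328 v329; ok v330 && (
  let v331 := mul v306 v330; ok v331 && (
  let v332 := add v331 v87; ok v332 && (
  let v333 := mul v306 v332; ok v333 && (
  let v334 := add v333 v84; ok v334 && (
  let v335 := mul v306 v334; ok v335 && (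
  let v336 := add v335 v79; ok v336 && (
  let v337 := mul v306 v336; ok v337 && (
  let v338 := add v337 v72; ok v338 && (
  let v339 := mul v306 v338; ok v339 && (
  let v340 := add v327 v63; ok v340 && (
  let v341 := add v339 v340; ok v341 && (
  let v342 := mul v303 v341; ok v342 && (
  let v343 := add v342 v21; ok v343 && (
  let v344 := neg v343; ok v344 && (
  let v345 := exp v344; ok v345 && (
  let v346 := add v345 v0; ok v346 && (
  isPos 3 v346 && (
  let v347 := log v346; ok v347 && (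
  let v348 := add v163 v195; ok v348 && (
  let v349 := sub v348 v347; ok v349 && (
  let v350 := scale ⟨549755813888, 0, 0, 0⟩ v241; ok v350 && (
  let v351 := mul v350 v267; ok v351 && (
  let v352 := sub v349 v351; ok v352 && (
  let v353 := exp v352; ok v353 && (
  let v354 := scale ⟨55987732480, 0, 0, 0⟩ v92; ok v354 && (
  let v355 := cst ⟨0, 23741136896, 0, 0⟩; ok v355 && (
  let v356 := add v354 v355; ok v356 && (
  let v357 := mul v92 v356; ok v357 && (
  let v358 := cst ⟨36688887808, 0, 0, 0⟩; ok v358 && (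
  let v359 := add v357 v358; ok v359 && (
  let v360 := mul v92 v359; ok v360 && (
  let v361 := scale ⟨597950464, 0, 0, 0⟩ v46; ok v361 && (
  let v362 := scale ⟨274524340224, 0, 0, 0⟩ v44; ok v362 && (
  let v363 := add v361 v362; ok v363 && (
  let v364 := cst ⟨6109134848, 0, 0, 0⟩; ok v364 && (
  let v365 := add v363 v364; ok v365 && (
  let v366 := add v360 v365; ok v366 && (
  let v367 := mul v92 v366; ok v367 && (
  let v368 := scale ⟨0, 2944598016, 0, 0⟩ v46; ok v368 && (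
  let v369 := scale ⟨3764668858368, 0, 0, 0⟩ v44; ok v369 && (
  let v370 := add v368 v369; ok v370 && (
  let v371 := cst ⟨54149185536, 0, 0, 0⟩; ok v371 && (
  let v372 := add v370 v371; ok v372 && (
  let v373 := add v367 v372; ok v373 && (
  let v374 := mul v92 v373; ok v374 && (
  let v375 := scale ⟨13767737344, 0, 0, 0⟩ v46; ok v375 && (
  let v376 := scale ⟨399638528, 0, 0, 0⟩ v47; ok v376 && (
  let v377 := add v375 v376; ok v377 && (
  let v378 := scale ⟨4333197000704, 0, 0, 0⟩ v44; ok v378 && (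
  let v379 := add v377 v378; ok v379 && (
  let v380 := scale ⟨1817750536192, 0, 0, 0⟩ v49; ok v380 && (
  let v381 := add v379 v380; ok v381 && (
  let v382 := scale ⟨168605433135104, 0, 0, 0⟩ v50; ok v382 && (
  let v383 := add v381 v382; ok v383 && (
  let v384 := cst ⟨1123216195584, 0, 0, 0⟩; ok v384 && (
  let v385 := add v383 v384; ok v385 && (
  let v386 := add v374 v385; ok v386 && (
  let v387 := inv v187; ok v387 && (
  let v388 := mul v387 v189; ok v388 && (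
  let v389 := scale ⟨989453090816, 0, 0, 0⟩ v248; ok v389 && (
  let v390 := add v389 v0; ok v390 && (
  isPos 3 v390 && (
  let v391 := scale ⟨0, 54001664, 0, 0⟩ v46; ok v391 && (
  let v392 := scale ⟨0, 21106458624, 0, 0⟩ v44; ok v392 && (
  let v393 := add v391 v392; ok v393 && (
  let v394 := scale ⟨0, 4347985920, 0, 0⟩ v49; ok v394 && (
  let v395 := add v393 v394; ok v395 && (
  let v396 := cst ⟨43718803456, 0, 0, 0⟩; ok v396 && (
  let v397 := add v395 v396; ok v397 && (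
  let v398 := scale ⟨1374389534720, 0, 0, 0⟩ v12; ok v398 && (
  let v399 := neg v398; ok v399 && (
  let v400 := exp v399; ok v400 && (
  let v401 := mul v397 v400; ok v401 && (
  let v402 := scale ⟨2199023255552, 0, 0, 0⟩ v401; ok v402 && (
  let v403 := add v248 v34; ok v403 && (
  let v404 := mul v402 v403; ok v404 && (
  let v405 := inv v390; ok v405 && (
  let v406 := mul v404 v405; ok v406 && (
  let v407 := cst ⟨0, 0, 0, 0⟩; ok v407 && (
  let v408 := mul v386 v353; ok v408 && (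
  let v409 := mul v408 v345; ok v409 && (
  let v410 := mul v406 v388; ok v410 && (
  let v411 := mul v409 v410; ok v411 && (
  let v412 := rball v407 v411; ok v412 && (
  let v413 := sub v0 v386; ok v413 && (
  let v414 := mul x3 v413; ok v414 && (
  let v415 := sub v0 v353; ok v415 && (
  let v416 := mul v415 v388; ok v416 && (
  let v417 := mul v386 v416; ok v417 && (
  let v418 := add v414 v417; ok v418 && (
  let v419 := add v418 v412; ok v419 && (
  isLt v419 1099510579200 && (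
  true)))))))))))))))))))))))))))))))))))))))))))))))))))))))))))))))))))))))))))))))))))))))))))))))))))))))))))))))))))))))))))))))))))))))))))))))))))))))))))))))))))))))))))))))))))))))))))))))))))))))))))))))))))))))))))))))))))))))))))))))))))))))))))))))))))))))))))))))))))))))))))))))))))))))))))))))))))))))))))))))))))))))))))))))))))))))))))))))))))))))))))))))))))))))))))))))))))))))))))))))))))))))))))))))))))))))))))))))))))))))))
  | _ => false

set_option maxRecDepth 1000000 in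
theorem c_Z_0_eq (X : XOps) (m : List X.O.α)
    (h : c_Z_0 X.O.cst X.O.add X.O.sub X.O.mul X.O.scale X.O.neg X.O.inv X.O.exp X.O.log X.O.ok
      X.O.isPos X.O.isLt X.ball X.rball m = true) :
    runX X 3 p_Z_0 m = true := by
  match m, h with
  | [x0, x1, x2, x3], h => exact h

abbrev gZ : List (List Op) := [p_Z_0]

noncomputable abbrev kZ : List (List xE.O.α → Bool) := [c_Z_0 xE.O.cst xE.O.add xE.O.sub xE.O.mul xE.O.scale xE.O.neg xE.O.inv xE.O.exp xE.O.log xE.O.ok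
      xE.O.isPos xE.O.isLt xE.ball xE.rball]

theorem kZ_eq : List.Forall₂ (fun (ops : List Op) (chk : List xE.O.α → Bool) =>
    ∀ m, chk m = true → runX xE 3 ops m = true) gZ kZ :=
  List.Forall₂.cons (c_Z_0_eq xE) List.Forall₂.nil

theorem gZ_eq : gZ = [comp (PS0 tab) ρ4 4] := by decide +kernel

def p_T_0 : List Op := [
  .const ⟨1099511627776, 0, 0, 0⟩,
  .scale ⟨2251799813685248, 0, 0, 0⟩ 1,
  .scale ⟨7138504081408, 0, 0, 0⟩ 0,
  .const ⟨0, 601020543533056, 0, 0⟩,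
  .add 1 0,
  .mul 0 5,
  .const ⟨7012575346688, 0, 0, 0⟩,
  .add 1 0,
  .mul 9 0,
  .const ⟨4398046511104, 0, 0, 0⟩,
  .add 1 0,
  .mul 11 0,
  .scale ⟨2199023255552, 0, 0, 0⟩ 0,
  .exp 1,
  .neg 2,
  .exp 0,
  .mul 2 2,
  .mul 1 1,
  .mul 0 0,
  .add 2 1,
  .scale ⟨549755813888, 0, 0, 0⟩ 0,
  .scale ⟨2199023255552, 0, 0, 0⟩ 10,
  .mul 10 10,
  .lt 0 68719476736,
  .scale ⟨9162596898, 0, 0, 0⟩ 0,
  .const ⟨183251937962, 0, 0, 0⟩,
  .add 1 0,
  .mul 0 3,
  .const ⟨1099511627776, 0, 0, 0⟩,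
  .add 1 0,
  .const ⟨65536, 0, 0, 0⟩,
  .rball 1 0,
  .mul 9 0,
  .add 18 16,
  .scale ⟨549755813888, 0, 0, 0⟩ 0,
  .mul 2 0,
  .mul 3 3,
  .mul 36 0,
  .mul 2 2,
  .mul 38 0,
  .neg 17,
  .exp 0,
  .add 0 40,
  .pos 0,
  .log 0,
  .const ⟨13589544960, 0, 0, 0⟩,
  .sub 44 0,
  .const ⟨5308579577856, 0, 0, 0⟩,
  .sub 35 0,
  .mul 0 0,
  .mul 0 1,
  .mul 4 2,
  .mul 5 5,
  .const ⟨714575183872, 0, 0, 0⟩,
  .scale ⟨0, 0, 1099511627776, 0⟩ 0,
  .scale ⟨549755813888, 0, 0, 0⟩ 0,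
  .add 0 53,
  .inv 0,
  .mul 3 0,
  .scale ⟨726765931200192, 0, 0, 0⟩ 0,
  .const ⟨0, 1240899072102400, 0, 0⟩,
  .add 1 0,
  .mul 3 0,
  .const ⟨1339366556953792, 0, 0, 0⟩,
  .add 1 0,
  .mul 6 0,
  .const ⟨0, 1048120203344704, 0, 0⟩,
  .add 1 0,
  .mul 9 0,
  .const ⟨554015885328576, 0, 0, 0⟩,
  .add 1 0,
  .mul 12 0,
  .const ⟨0, 253567101878528, 0, 0⟩,
  .add 1 0,
  .mul 15 0,
  .scale ⟨4286977206656, 0, 0, 0⟩ 26,
  .scale ⟨1323675132634048, 0, 0, 0⟩ 29,
  .add 1 0,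
  .const ⟨73032514797952, 0, 0, 0⟩,
  .add 1 0,
  .add 5 0,
  .mul 22 0,
  .scale ⟨0, 1227011303552, 0, 0⟩ 33,
  .scale ⟨0, 306849460188800, 0, 0⟩ 36,
  .add 1 0,
  .const ⟨0, 21195872609984, 0, 0⟩,
  .add 1 0,
  .add 5 0,
  .mul 29 0,
  .scale ⟨1709122944832, 0, 0, 0⟩ 40,
  .scale ⟨536868184326016, 0, 0, 0⟩ 43,
  .add 1 0,
  .const ⟨3291196431296, 0, 0, 0⟩,
  .add 1 0,
  .add 5 0,
  .mul 36 0,
  .scale ⟨0, 63411912384, 0, 0⟩ 47,
  .scale ⟨0, 4181896817920, 0, 0⟩ 50,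
  .add 1 0,
  .const ⟨245600152832, 0, 0, 0⟩,
  .add 1 0,
  .add 5 0,
  .mul 43 0,
  .scale ⟨197270143296, 0, 0, 0⟩ 54,
  .scale ⟨39674865006912, 0, 0, 0⟩ 57,
  .add 1 0,
  .const ⟨1052096917376, 0, 0, 0⟩,
  .add 1 0,
  .add 5 0,
  .mul 50 0,
  .scale ⟨0, 158183027520, 0, 0⟩ 61,
  .scale ⟨0, 33997875177408, 0, 0⟩ 64,
  .add 1 0,
  .const ⟨3711016808832, 0, 0, 0⟩,
  .add 1 0,
  .add 5 0,
  .mul 57 0,
  .scale ⟨81690191808, 0, 0, 0⟩ 68,
  .scale ⟨0, 1040714688, 0, 0⟩ 68,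
  .add 1 0,
  .scale ⟨27389892833088, 0, 0, 0⟩ 73,
  .add 1 0,
  .scale ⟨5482278688960, 0, 0, 0⟩ 70,
  .add 1 0,
  .scale ⟨0, 147540632937792, 0, 0⟩ 71,
  .add 1 0,
  .const ⟨320699424384, 0, 0, 0⟩,
  .add 1 0,
  .mul 0 115,
  .add 12 0,
  .mul 128 128,
  .scale ⟨5703716569088, 0, 0, 0⟩ 0,
  .const ⟨1726576852992, 0, 0, 0⟩,
  .add 1 0,
  .scale ⟨4398046511104, 0, 0, 0⟩ 121,
  .mul 76 1,
  .scale ⟨4398046511104, 0, 0, 0⟩ 0,
  .add 2 0,
  .scale ⟨0, 156762112, 0, 0⟩ 89,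
  .scale ⟨6668681216, 0, 0, 0⟩ 89,
  .add 1 0,
  .scale ⟨4273471488, 0, 0, 0⟩ 90,
  .add 1 0,
  .scale ⟨228789714944, 0, 0, 0⟩ 96,
  .add 1 0,
  .scale ⟨12096805011456, 0, 0, 0⟩ 93,
  .add 1 0,
  .const ⟨196975656960, 0, 0, 0⟩,
  .add 1 0,
  .scale ⟨5085241278464, 0, 0, 0⟩ 134,
  .neg 0,
  .exp 0,
  .mul 3 0,
  .mul 0 15,
  .scale ⟨659814350848, 0, 0, 0⟩ 16,
  .add 0 152,
  .pos 0,
  .inv 0,
  .mul 3 0,
  .neg 28,
  .exp 0,
  .add 0 157,
  .pos 0,
  .log 0,
  .mul 4 162,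
  .sub 160 0,
  .pos 0,
  .log 0,
  .mul 5 2,
  .add 0 163,
  .pos 0,
  .log 0,
  .sub 6 0,
  .add 156 124,
  .sub 1 0,
  .mul 0 169,
  .exp 0,
  .sub 5 8,
  .add 0 44,
  .mul 0 173,
  .exp 0,
  .mul 143 143,
  .scale ⟨274877906944, 0, 0, 0⟩ 0,
  .mul 48 0,
  .scale ⟨1649267441664, 0, 0, 0⟩ 0,
  .add 0 178,
  .mul 48 0,
  .mul 129 0,
  .scale ⟨0, 0, 1099511627776, 0⟩ 0,
  .mul 0 0,
  .sub 7 0,
  .mul 14 14,
  .mul 0 1,
  .mul 58 0,
  .scale ⟨4398046511104, 0, 0, 0⟩ 0,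
  .sub 188 0,
  .pos 0,
  .log 0,
  .scale ⟨549755813888, 0, 0, 0⟩ 0,
  .exp 0,
  .mul 193 22,
  .mul 0 11,
  .scale ⟨2199023255552, 0, 0, 0⟩ 0,
  .sub 3 0,
  .pos 0,
  .pos 197,
  .inv 197,
  .const ⟨549755813888, 0, 0, 0⟩,
  .sub 33 39,
  .log 3,
  .mul 0 3,
  .add 2 0,
  .exp 0,
  .sub 5 0,
  .pos 0]

set_option maxRecDepth 1000000 in
noncomputable def c_T_0 {α : Type} (cst : Z → α) (add sub mul : α → α → α) (scale : Z → α → α)
    (neg inv exp log : α → α) (ok : α → Bool) (isPos : Nat → α → Bool) (isLt : α → Nat → Bool)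
    (ball : Nat → α → α) (rball : α → α → α) : List α → Bool
  | [x0, x1, x2] =>
  let v0 := cst ⟨1099511627776, 0, 0, 0⟩; ok v0 && (
  let v1 := scale ⟨2251799813685248, 0, 0, 0⟩ x0; ok v1 && (
  let v2 := scale ⟨7138504081408, 0, 0, 0⟩ v1; ok v2 && (
  let v3 := cst ⟨0, 601020543533056, 0, 0⟩; ok v3 && (
  let v4 := add v2 v3; ok v4 && (
  let v5 := mul v4 x0; ok v5 && (
  let v6 := cst ⟨7012575346688, 0, 0, 0⟩; ok v6 && (
  let v7 := add v5 v6; ok v7 && (
  let v8 := mul x1 v7; ok v8 && (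
  let v9 := cst ⟨4398046511104, 0, 0, 0⟩; ok v9 && (
  let v10 := add v8 v9; ok v10 && (
  let v11 := mul x0 v10; ok v11 && (
  let v12 := scale ⟨2199023255552, 0, 0, 0⟩ v11; ok v12 && (
  let v13 := exp v11; ok v13 && (
  let v14 := neg v11; ok v14 && (
  let v15 := exp v14; ok v15 && (
  let v16 := mul v13 v13; ok v16 && (
  let v17 := mul v15 v15; ok v17 && (
  let v18 := mul v17 v17; ok v18 && (
  let v19 := add v16 v17; ok v19 && (
  let v20 := scale ⟨549755813888, 0, 0, 0⟩ v19; ok v20 && (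
  let v21 := scale ⟨2199023255552, 0, 0, 0⟩ v10; ok v21 && (
  let v22 := mul v11 v11; ok v22 && (
  isLt v22 68719476736 && (
  let v23 := scale ⟨9162596898, 0, 0, 0⟩ v22; ok v23 && (
  let v24 := cst ⟨183251937962, 0, 0, 0⟩; ok v24 && (
  let v25 := add v23 v24; ok v25 && (
  let v26 := mul v25 v22; ok v26 && (
  let v27 := cst ⟨1099511627776, 0, 0, 0⟩; ok v27 && (
  let v28 := add v26 v27; ok v28 && (
  let v29 := cst ⟨65536, 0, 0, 0⟩; ok v29 && (
  let v30 := rball v28 v29; ok v30 && (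
  let v31 := mul v21 v30; ok v31 && (
  let v32 := add v13 v15; ok v32 && (
  let v33 := scale ⟨549755813888, 0, 0, 0⟩ v32; ok v33 && (
  let v34 := mul v31 v33; ok v34 && (
  let v35 := mul v31 v31; ok v35 && (
  let v36 := mul x0 v35; ok v36 && (
  let v37 := mul v34 v34; ok v37 && (
  let v38 := mul x0 v37; ok v38 && (
  let v39 := neg v21; ok v39 && (
  let v40 := exp v39; ok v40 && (
  let v41 := add v40 v0; ok v41 && (
  isPos 2 v41 && (
  let v42 := log v41; ok v42 && (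
  let v43 := cst ⟨13589544960, 0, 0, 0⟩; ok v43 && (
  let v44 := sub x0 v43; ok v44 && (
  let v45 := cst ⟨5308579577856, 0, 0, 0⟩; ok v45 && (
  let v46 := sub v10 v45; ok v46 && (
  let v47 := mul v46 v46; ok v47 && (
  let v48 := mul v47 v46; ok v48 && (
  let v49 := mul v44 v46; ok v49 && (
  let v50 := mul v44 v44; ok v50 && (
  let v51 := cst ⟨714575183872, 0, 0, 0⟩; ok v51 && (
  let v52 := scale ⟨0, 0, 1099511627776, 0⟩ v51; ok v52 && (
  let v53 := scale ⟨549755813888, 0, 0, 0⟩ v52; ok v53 && (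
  let v54 := add v53 v0; ok v54 && (
  let v55 := inv v54; ok v55 && (
  let v56 := mul v52 v55; ok v56 && (
  let v57 := scale ⟨726765931200192, 0, 0, 0⟩ v56; ok v57 && (
  let v58 := cst ⟨0, 1240899072102400, 0, 0⟩; ok v58 && (
  let v59 := add v57 v58; ok v59 && (
  let v60 := mul v56 v59; ok v60 && (
  let v61 := cst ⟨1339366556953792, 0, 0, 0⟩; ok v61 && (
  let v62 := add v60 v61; ok v62 && (
  let v63 := mul v56 v62; ok v63 && (
  let v64 := cst ⟨0, 1048120203344704, 0, 0⟩; ok v64 && (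
  let v65 := add v63 v64; ok v65 && (
  let v66 := mul v56 v65; ok v66 && (
  let v67 := cst ⟨554015885328576, 0, 0, 0⟩; ok v67 && (
  let v68 := add v66 v67; ok v68 && (
  let v69 := mul v56 v68; ok v69 && (
  let v70 := cst ⟨0, 253567101878528, 0, 0⟩; ok v70 && (
  let v71 := add v69 v70; ok v71 && (
  let v72 := mul v56 v71; ok v72 && (
  let v73 := scale ⟨4286977206656, 0, 0, 0⟩ v46; ok v73 && (
  let v74 := scale ⟨1323675132634048, 0, 0, 0⟩ v44; ok v74 && (
  let v75 := add v73 v74; ok v75 && (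
  let v76 := cst ⟨73032514797952, 0, 0, 0⟩; ok v76 && (
  let v77 := add v75 v76; ok v77 && (
  let v78 := add v72 v77; ok v78 && (
  let v79 := mul v56 v78; ok v79 && (
  let v80 := scale ⟨0, 1227011303552, 0, 0⟩ v46; ok v80 && (
  let v81 := scale ⟨0, 306849460188800, 0, 0⟩ v44; ok v81 && (
  let v82 := add v80 v81; ok v82 && (
  let v83 := cst ⟨0, 21195872609984, 0, 0⟩; ok v83 && (
  let v84 := add v82 v83; ok v84 && (
  let v85 := add v79 v84; ok v85 && (
  let v86 := mul v56 v85; ok v86 && (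
  let v87 := scale ⟨1709122944832, 0, 0, 0⟩ v46; ok v87 && (
  let v88 := scale ⟨536868184326016, 0, 0, 0⟩ v44; ok v88 && (
  let v89 := add v87 v88; ok v89 && (
  let v90 := cst ⟨3291196431296, 0, 0, 0⟩; ok v90 && (
  let v91 := add v89 v90; ok v91 && (
  let v92 := add v86 v91; ok v92 && (
  let v93 := mul v56 v92; ok v93 && (
  let v94 := scale ⟨0, 63411912384, 0, 0⟩ v46; ok v94 && (
  let v95 := scale ⟨0, 4181896817920, 0, 0⟩ v44; ok v95 && (
  let v96 := add v94 v95; ok v96 && (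
  let v97 := cst ⟨245600152832, 0, 0, 0⟩; ok v97 && (
  let v98 := add v96 v97; ok v98 && (
  let v99 := add v93 v98; ok v99 && (
  let v100 := mul v56 v99; ok v100 && (
  let v101 := scale ⟨197270143296, 0, 0, 0⟩ v46; ok v101 && (
  let v102 := scale ⟨39674865006912, 0, 0, 0⟩ v44; ok v102 && (
  let v103 := add v101 v102; ok v103 && (
  let v104 := cst ⟨1052096917376, 0, 0, 0⟩; ok v104 && (
  let v105 := add v103 v104; ok v105 && (
  let v106 := add v100 v105; ok v106 && (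
  let v107 := mul v56 v106; ok v107 && (
  let v108 := scale ⟨0, 158183027520, 0, 0⟩ v46; ok v108 && (
  let v109 := scale ⟨0, 33997875177408, 0, 0⟩ v44; ok v109 && (
  let v110 := add v108 v109; ok v110 && (
  let v111 := cst ⟨3711016808832, 0, 0, 0⟩; ok v111 && (
  let v112 := add v110 v111; ok v112 && (
  let v113 := add v107 v112; ok v113 && (
  let v114 := mul v56 v113; ok v114 && (
  let v115 := scale ⟨81690191808, 0, 0, 0⟩ v46; ok v115 && (
  let v116 := scale ⟨0, 1040714688, 0, 0⟩ v47; ok v116 && (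
  let v117 := add v115 v116; ok v117 && (
  let v118 := scale ⟨27389892833088, 0, 0, 0⟩ v44; ok v118 && (
  let v119 := add v117 v118; ok v119 && (
  let v120 := scale ⟨5482278688960, 0, 0, 0⟩ v49; ok v120 && (
  let v121 := add v119 v120; ok v121 && (
  let v122 := scale ⟨0, 147540632937792, 0, 0⟩ v50; ok v122 && (
  let v123 := add v121 v122; ok v123 && (
  let v124 := cst ⟨320699424384, 0, 0, 0⟩; ok v124 && (
  let v125 := add v123 v124; ok v125 && (
  let v126 := mul v125 v10; ok v126 && (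
  let v127 := add v114 v126; ok v127 && (
  let v128 := mul x0 x0; ok v128 && (
  let v129 := scale ⟨5703716569088, 0, 0, 0⟩ v128; ok v129 && (
  let v130 := cst ⟨1726576852992, 0, 0, 0⟩; ok v130 && (
  let v131 := add v129 v130; ok v131 && (
  let v132 := scale ⟨4398046511104, 0, 0, 0⟩ v10; ok v132 && (
  let v133 := mul v56 v131; ok v133 && (
  let v134 := scale ⟨4398046511104, 0, 0, 0⟩ v133; ok v134 && (
  let v135 := add v132 v134; ok v135 && (
  let v136 := scale ⟨0, 156762112, 0, 0⟩ v46; ok v136 && (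
  let v137 := scale ⟨6668681216, 0, 0, 0⟩ v47; ok v137 && (
  let v138 := add v136 v137; ok v138 && (
  let v139 := scale ⟨4273471488, 0, 0, 0⟩ v48; ok v139 && (
  let v140 := add v138 v139; ok v140 && (
  let v141 := scale ⟨228789714944, 0, 0, 0⟩ v44; ok v141 && (
  let v142 := add v140 v141; ok v142 && (
  let v143 := scale ⟨12096805011456, 0, 0, 0⟩ v49; ok v143 && (
  let v144 := add v142 v143; ok v144 && (
  let v145 := cst ⟨196975656960, 0, 0, 0⟩; ok v145 && (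
  let v146 := add v144 v145; ok v146 && (
  let v147 := scale ⟨5085241278464, 0, 0, 0⟩ v12; ok v147 && (
  let v148 := neg v147; ok v148 && (
  let v149 := exp v148; ok v149 && (
  let v150 := mul v146 v149; ok v150 && (
  let v151 := mul v150 v135; ok v151 && (
  let v152 := scale ⟨659814350848, 0, 0, 0⟩ v135; ok v152 && (
  let v153 := add v152 v0; ok v153 && (
  isPos 2 v153 && (
  let v154 := inv v153; ok v154 && (
  let v155 := mul v151 v154; ok v155 && (
  let v156 := neg v127; ok v156 && (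
  let v157 := exp v156; ok v157 && (
  let v158 := add v157 v0; ok v158 && (
  isPos 2 v158 && (
  let v159 := log v158; ok v159 && (
  let v160 := mul v155 x2; ok v160 && (
  let v161 := sub v0 v160; ok v161 && (
  isPos 2 v161 && (
  let v162 := log v161; ok v162 && (
  let v163 := mul v157 v160; ok v163 && (
  let v164 := add v163 v0; ok v164 && (
  isPos 2 v164 && (
  let v165 := log v164; ok v165 && (
  let v166 := sub v159 v165; ok v166 && (
  let v167 := add v10 v42; ok v167 && (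
  let v168 := sub v166 v167; ok v168 && (
  let v169 := mul v168 x0; ok v169 && (
  let v170 := exp v169; ok v170 && (
  let v171 := sub v165 v162; ok v171 && (
  let v172 := add v171 v127; ok v172 && (
  let v173 := mul v172 x0; ok v173 && (
  let v174 := exp v173; ok v174 && (
  let v175 := mul v31 v31; ok v175 && (
  let v176 := scale ⟨274877906944, 0, 0, 0⟩ v175; ok v176 && (
  let v177 := mul v128 v176; ok v177 && (
  let v178 := scale ⟨1649267441664, 0, 0, 0⟩ v177; ok v178 && (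
  let v179 := add v178 v0; ok v179 && (
  let v180 := mul v131 v179; ok v180 && (
  let v181 := mul v51 v180; ok v181 && (
  let v182 := scale ⟨0, 0, 1099511627776, 0⟩ v181; ok v182 && (
  let v183 := mul v182 v182; ok v183 && (
  let v184 := sub v176 v183; ok v184 && (
  let v185 := mul v170 v170; ok v185 && (
  let v186 := mul v185 v184; ok v186 && (
  let v187 := mul v128 v186; ok v187 && (
  let v188 := scale ⟨4398046511104, 0, 0, 0⟩ v187; ok v188 && (
  let v189 := sub v0 v188; ok v189 && (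
  isPos 2 v189 && (
  let v190 := log v189; ok v190 && (
  let v191 := scale ⟨549755813888, 0, 0, 0⟩ v190; ok v191 && (
  let v192 := exp v191; ok v192 && (
  let v193 := mul x0 v170; ok v193 && (
  let v194 := mul v193 v182; ok v194 && (
  let v195 := scale ⟨2199023255552, 0, 0, 0⟩ v194; ok v195 && (
  let v196 := sub v192 v195; ok v196 && (
  isPos 2 v196 && (
  isPos 2 x0 && (
  let v197 := inv x0; ok v197 && (
  let v198 := cst ⟨549755813888, 0, 0, 0⟩; ok v198 && (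
  let v199 := sub v165 v159; ok v199 && (
  let v200 := log v196; ok v200 && (
  let v201 := mul v200 v197; ok v201 && (
  let v202 := add v199 v201; ok v202 && (
  let v203 := exp v202; ok v203 && (
  let v204 := sub v198 v203; ok v204 && (
  isPos 2 v204 && (
  true)))))))))))))))))))))))))))))))))))))))))))))))))))))))))))))))))))))))))))))))))))))))))))))))))))))))))))))))))))))))))))))))))))))))))))))))))))))))))))))))))))))))))))))))))))))))))))))))))))))))))))))))))))))))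
  | _ => false

set_option maxRecDepth 1000000 in
theorem c_T_0_eq (X : XOps) (m : List X.O.α)
    (h : c_T_0 X.O.cst X.O.add X.O.sub X.O.mul X.O.scale X.O.neg X.O.inv X.O.exp X.O.log X.O.ok
      X.O.isPos X.O.isLt X.ball X.rball m = true) :
    runX X 2 p_T_0 m = true := by
  match m, h with
  | [x0, x1, x2], h => exact h

abbrev gT : List (List Op) := [p_T_0]

noncomputable abbrev kT : List (List xE.O.α → Bool) := [c_T_0 xE.O.cst xE.O.add xE.O.sub xE.O.mul xE.O.scale xE.O.neg xE.O.inv xE.O.exp xE.O.log xE.O.ok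
      xE.O.isPos xE.O.isLt xE.ball xE.rball]

theorem kT_eq : List.Forall₂ (fun (ops : List Op) (chk : List xE.O.α → Bool) =>
    ∀ m, chk m = true → runX xE 2 ops m = true) gT kT :=
  List.Forall₂.cons (c_T_0_eq xE) List.Forall₂.nil

theorem gT_eq : gT = [comp (PST tab 714575183872) ρ3 3] := by decide +kernel

def p_S_0 : List Op := [
  .const ⟨1099511627776, 0, 0, 0⟩,
  .scale ⟨2251799813685248, 0, 0, 0⟩ 1,
  .scale ⟨7138504081408, 0, 0, 0⟩ 0,
  .const ⟨0, 601020543533056, 0, 0⟩,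
  .add 1 0,
  .mul 0 5,
  .const ⟨7012575346688, 0, 0, 0⟩,
  .add 1 0,
  .mul 9 0,
  .const ⟨4398046511104, 0, 0, 0⟩,
  .add 1 0,
  .mul 11 0,
  .exp 0,
  .neg 1,
  .exp 0,
  .mul 3 3,
  .lt 0 68719476736,
  .scale ⟨9162596898, 0, 0, 0⟩ 0,
  .const ⟨183251937962, 0, 0, 0⟩,
  .add 1 0,
  .mul 0 3,
  .const ⟨1099511627776, 0, 0, 0⟩,
  .add 1 0,
  .const ⟨65536, 0, 0, 0⟩,
  .rball 1 0,
  .scale ⟨2199023255552, 0, 0, 0⟩ 13,
  .mul 0 1,
  .add 13 11,
  .scale ⟨549755813888, 0, 0, 0⟩ 0,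
  .mul 2 0,
  .mul 0 0,
  .const ⟨13589544960, 0, 0, 0⟩,
  .sub 31 0,
  .const ⟨5308579577856, 0, 0, 0⟩,
  .sub 22 0,
  .mul 0 0,
  .mul 0 1,
  .mul 4 2,
  .scale ⟨1377959936, 0, 0, 0⟩ 3,
  .scale ⟨16582705152, 0, 0, 0⟩ 3,
  .add 1 0,
  .scale ⟨6850084864, 0, 0, 0⟩ 4,
  .add 1 0,
  .scale ⟨16461687422976, 0, 0, 0⟩ 10,
  .add 1 0,
  .scale ⟨4096638844928, 0, 0, 0⟩ 7,
  .add 1 0,
  .const ⟨726277816320, 0, 0, 0⟩,
  .add 1 0,
  .pos 0,
  .const ⟨11170136195072, 0, 0, 0⟩,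
  .add 19 0,
  .pos 0,
  .const ⟨13589544960, 0, 0, 0⟩,
  .sub 51 0,
  .const ⟨5308579577856, 0, 0, 0⟩,
  .sub 42 0,
  .mul 0 0,
  .mul 0 1,
  .mul 4 2,
  .mul 42 42,
  .mul 0 0,
  .scale ⟨4398046511104, 0, 0, 0⟩ 47,
  .neg 0,
  .exp 0,
  .scale ⟨1377959936, 0, 0, 0⟩ 8,
  .scale ⟨16582705152, 0, 0, 0⟩ 8,
  .add 1 0,
  .scale ⟨6850084864, 0, 0, 0⟩ 9,
  .add 1 0,
  .scale ⟨16461687422976, 0, 0, 0⟩ 15,
  .add 1 0,
  .scale ⟨4096638844928, 0, 0, 0⟩ 12,
  .add 1 0,
  .const ⟨726277816320, 0, 0, 0⟩,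
  .add 1 0,
  .mul 73 44,
  .mul 0 1,
  .add 0 74,
  .mul 14 0,
  .scale ⟨2199023255552, 0, 0, 0⟩ 19,
  .mul 5 16,
  .sub 1 0,
  .pos 0,
  .scale ⟨45678395392, 0, 0, 0⟩ 26,
  .scale ⟨0, 4345298944, 0, 0⟩ 26,
  .add 1 0,
  .scale ⟨8427601920, 0, 0, 0⟩ 27,
  .add 1 0,
  .scale ⟨21008391929856, 0, 0, 0⟩ 33,
  .add 1 0,
  .scale ⟨0, 928088784896, 0, 0⟩ 30,
  .add 1 0,
  .const ⟨525528072192, 0, 0, 0⟩,
  .add 1 0,
  .pos 0,
  .const ⟨14645838479360, 0, 0, 0⟩,
  .add 62 0,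
  .pos 0,
  .const ⟨13589544960, 0, 0, 0⟩,
  .sub 94 0,
  .const ⟨5308579577856, 0, 0, 0⟩,
  .sub 85 0,
  .mul 0 0,
  .mul 0 1,
  .mul 4 2,
  .mul 85 85,
  .mul 0 0,
  .scale ⟨8796093022208, 0, 0, 0⟩ 90,
  .neg 0,
  .exp 0,
  .scale ⟨47056355328, 0, 0, 0⟩ 8,
  .scale ⟨12237406208, 0, 0, 0⟩ 8,
  .add 1 0,
  .scale ⟨15277686784, 0, 0, 0⟩ 9,
  .add 1 0,
  .scale ⟨37470079352832, 0, 0, 0⟩ 15,
  .add 1 0,
  .scale ⟨3168550060032, 0, 0, 0⟩ 12,
  .add 1 0,
  .const ⟨1251805888512, 0, 0, 0⟩,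
  .add 1 0,
  .mul 116 87,
  .mul 0 1,
  .add 0 117,
  .mul 14 0,
  .scale ⟨1099511627776, 0, 0, 0⟩ 18,
  .add 0 120,
  .mul 21 0,
  .scale ⟨2199023255552, 0, 0, 0⟩ 0,
  .mul 8 19,
  .sub 1 0,
  .pos 0,
  .scale ⟨23375314944, 0, 0, 0⟩ 29,
  .scale ⟨0, 1539899392, 0, 0⟩ 29,
  .add 1 0,
  .scale ⟨13358399488, 0, 0, 0⟩ 30,
  .add 1 0,
  .scale ⟨16213037416448, 0, 0, 0⟩ 36,
  .add 1 0,
  .scale ⟨0, 1393084399616, 0, 0⟩ 33,
  .add 1 0,
  .const ⟨482823110656, 0, 0, 0⟩,
  .add 1 0,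
  .pos 0,
  .const ⟨16664473108480, 0, 0, 0⟩,
  .add 108 0,
  .pos 0,
  .const ⟨13589544960, 0, 0, 0⟩,
  .sub 140 0,
  .const ⟨5308579577856, 0, 0, 0⟩,
  .sub 131 0,
  .mul 0 0,
  .mul 0 1,
  .mul 4 2,
  .mul 131 131,
  .mul 0 0,
  .scale ⟨13194139533312, 0, 0, 0⟩ 136,
  .neg 0,
  .exp 0,
  .scale ⟨70431670272, 0, 0, 0⟩ 8,
  .scale ⟨10697506816, 0, 0, 0⟩ 8,
  .add 1 0,
  .scale ⟨28636086272, 0, 0, 0⟩ 9,
  .add 1 0,
  .scale ⟨53683116769280, 0, 0, 0⟩ 15,
  .add 1 0,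
  .scale ⟨1775465660416, 0, 0, 0⟩ 12,
  .add 1 0,
  .const ⟨1734628999168, 0, 0, 0⟩,
  .add 1 0,
  .mul 162 133,
  .mul 0 1,
  .add 0 163,
  .mul 14 0,
  .scale ⟨1099511627776, 0, 0, 0⟩ 18,
  .add 0 166,
  .mul 20 0,
  .add 0 168,
  .mul 23 0,
  .scale ⟨2199023255552, 0, 0, 0⟩ 0,
  .mul 10 21,
  .sub 1 0,
  .pos 0,
  .scale ⟨3054043136, 0, 0, 0⟩ 31,
  .scale ⟨0, 2775187456, 0, 0⟩ 31,
  .add 1 0,
  .scale ⟨15206514688, 0, 0, 0⟩ 32,
  .add 1 0,
  .scale ⟨11604714389504, 0, 0, 0⟩ 38,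
  .add 1 0,
  .scale ⟨0, 4107427446784, 0, 0⟩ 35,
  .add 1 0,
  .const ⟨456173748224, 0, 0, 0⟩,
  .add 1 0,
  .pos 0,
  .const ⟨17537425211392, 0, 0, 0⟩,
  .add 156 0,
  .pos 0,
  .const ⟨13589544960, 0, 0, 0⟩,
  .sub 188 0,
  .const ⟨5308579577856, 0, 0, 0⟩,
  .sub 179 0,
  .mul 0 0,
  .mul 0 1,
  .mul 4 2,
  .mul 179 179,
  .mul 0 0,
  .scale ⟨17592186044416, 0, 0, 0⟩ 184,
  .neg 0,
  .exp 0,
  .scale ⟨73485713408, 0, 0, 0⟩ 8,
  .scale ⟨7922319360, 0, 0, 0⟩ 8,
  .add 1 0,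
  .scale ⟨43842600960, 0, 0, 0⟩ 9,
  .add 1 0,
  .scale ⟨65287831158784, 0, 0, 0⟩ 15,
  .add 1 0,
  .scale ⟨0, 2331961786368, 0, 0⟩ 12,
  .add 1 0,
  .const ⟨2190802747392, 0, 0, 0⟩,
  .add 1 0,
  .mul 210 181,
  .mul 0 1,
  .add 0 211,
  .mul 14 0,
  .scale ⟨1099511627776, 0, 0, 0⟩ 18,
  .add 0 214,
  .mul 20 0,
  .add 0 216,
  .mul 22 0,
  .add 0 218,
  .mul 25 0,
  .scale ⟨2199023255552, 0, 0, 0⟩ 0,
  .mul 12 23,
  .sub 1 0,
  .pos 0,
  .scale ⟨0, 4599119872, 0, 0⟩ 33,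
  .scale ⟨0, 5456003072, 0, 0⟩ 33,
  .add 1 0,
  .scale ⟨8867872768, 0, 0, 0⟩ 34,
  .add 1 0,
  .scale ⟨6534503792640, 0, 0, 0⟩ 40,
  .add 1 0,
  .scale ⟨0, 6852094525440, 0, 0⟩ 37,
  .add 1 0,
  .const ⟨437579415552, 0, 0, 0⟩,
  .add 1 0,
  .pos 0,
  .const ⟨17149804412928, 0, 0, 0⟩,
  .add 206 0,
  .pos 0,
  .const ⟨13589544960, 0, 0, 0⟩,
  .sub 238 0,
  .const ⟨5308579577856, 0, 0, 0⟩,
  .sub 229 0,
  .mul 0 0,
  .mul 0 1,
  .mul 4 2,
  .mul 229 229,
  .mul 0 0,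
  .scale ⟨21990232555520, 0, 0, 0⟩ 234,
  .neg 0,
  .exp 0,
  .scale ⟨68886593536, 0, 0, 0⟩ 8,
  .scale ⟨2466316288, 0, 0, 0⟩ 8,
  .add 1 0,
  .scale ⟨52710473728, 0, 0, 0⟩ 9,
  .add 1 0,
  .scale ⟨71822334951424, 0, 0, 0⟩ 15,
  .add 1 0,
  .scale ⟨0, 9184056311808, 0, 0⟩ 12,
  .add 1 0,
  .const ⟨2628382162944, 0, 0, 0⟩,
  .add 1 0,
  .mul 260 231,
  .mul 0 1,
  .add 0 261,
  .mul 14 0,
  .scale ⟨1099511627776, 0, 0, 0⟩ 18,
  .add 0 264,
  .mul 20 0,
  .add 0 266,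
  .mul 22 0,
  .add 0 268,
  .mul 24 0,
  .add 0 270,
  .mul 27 0,
  .scale ⟨2199023255552, 0, 0, 0⟩ 0,
  .mul 14 25,
  .sub 1 0,
  .pos 0,
  .mul 276 247,
  .mul 0 17,
  .add 0 277,
  .scale ⟨4837850742784, 0, 0, 0⟩ 267,
  .neg 0,
  .exp 0,
  .mul 3 0,
  .lt 0 1099511627520]

set_option maxRecDepth 1000000 in
noncomputable def c_S_0 {α : Type} (cst : Z → α) (add sub mul : α → α → α) (scale : Z → α → α)
    (neg inv exp log : α → α) (ok : α → Bool) (isPos : Nat → α → Bool) (isLt : α → Nat → Bool)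
    (ball : Nat → α → α) (rball : α → α → α) : List α → Bool
  | [x0, x1] =>
  let v0 := cst ⟨1099511627776, 0, 0, 0⟩; ok v0 && (
  let v1 := scale ⟨2251799813685248, 0, 0, 0⟩ x0; ok v1 && (
  let v2 := scale ⟨7138504081408, 0, 0, 0⟩ v1; ok v2 && (
  let v3 := cst ⟨0, 601020543533056, 0, 0⟩; ok v3 && (
  let v4 := add v2 v3; ok v4 && (
  let v5 := mul v4 x0; ok v5 && (
  let v6 := cst ⟨7012575346688, 0, 0, 0⟩; ok v6 && (
  let v7 := add v5 v6; ok v7 && (
  let v8 := mul x1 v7; ok v8 && (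
  let v9 := cst ⟨4398046511104, 0, 0, 0⟩; ok v9 && (
  let v10 := add v8 v9; ok v10 && (
  let v11 := mul x0 v10; ok v11 && (
  let v12 := exp v11; ok v12 && (
  let v13 := neg v11; ok v13 && (
  let v14 := exp v13; ok v14 && (
  let v15 := mul v11 v11; ok v15 && (
  isLt v15 68719476736 && (
  let v16 := scale ⟨9162596898, 0, 0, 0⟩ v15; ok v16 && (
  let v17 := cst ⟨183251937962, 0, 0, 0⟩; ok v17 && (
  let v18 := add v16 v17; ok v18 && (
  let v19 := mul v18 v15; ok v19 && (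
  let v20 := cst ⟨1099511627776, 0, 0, 0⟩; ok v20 && (
  let v21 := add v19 v20; ok v21 && (
  let v22 := cst ⟨65536, 0, 0, 0⟩; ok v22 && (
  let v23 := rball v21 v22; ok v23 && (
  let v24 := scale ⟨2199023255552, 0, 0, 0⟩ v10; ok v24 && (
  let v25 := mul v24 v23; ok v25 && (
  let v26 := add v12 v14; ok v26 && (
  let v27 := scale ⟨549755813888, 0, 0, 0⟩ v26; ok v27 && (
  let v28 := mul v25 v27; ok v28 && (
  let v29 := mul v28 v28; ok v29 && (
  let v30 := cst ⟨13589544960, 0, 0, 0⟩; ok v30 && (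
  let v31 := sub x0 v30; ok v31 && (
  let v32 := cst ⟨5308579577856, 0, 0, 0⟩; ok v32 && (
  let v33 := sub v10 v32; ok v33 && (
  let v34 := mul v33 v33; ok v34 && (
  let v35 := mul v34 v33; ok v35 && (
  let v36 := mul v31 v33; ok v36 && (
  let v37 := scale ⟨1377959936, 0, 0, 0⟩ v33; ok v37 && (
  let v38 := scale ⟨16582705152, 0, 0, 0⟩ v34; ok v38 && (
  let v39 := add v37 v38; ok v39 && (
  let v40 := scale ⟨6850084864, 0, 0, 0⟩ v35; ok v40 && (
  let v41 := add v39 v40; ok v41 && (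
  let v42 := scale ⟨16461687422976, 0, 0, 0⟩ v31; ok v42 && (
  let v43 := add v41 v42; ok v43 && (
  let v44 := scale ⟨4096638844928, 0, 0, 0⟩ v36; ok v44 && (
  let v45 := add v43 v44; ok v45 && (
  let v46 := cst ⟨726277816320, 0, 0, 0⟩; ok v46 && (
  let v47 := add v45 v46; ok v47 && (
  isPos 2 v47 && (
  let v48 := cst ⟨11170136195072, 0, 0, 0⟩; ok v48 && (
  let v49 := add v29 v48; ok v49 && (
  isPos 2 v49 && (
  let v50 := cst ⟨13589544960, 0, 0, 0⟩; ok v50 && (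
  let v51 := sub x0 v50; ok v51 && (
  let v52 := cst ⟨5308579577856, 0, 0, 0⟩; ok v52 && (
  let v53 := sub v10 v52; ok v53 && (
  let v54 := mul v53 v53; ok v54 && (
  let v55 := mul v54 v53; ok v55 && (
  let v56 := mul v51 v53; ok v56 && (
  let v57 := mul v14 v14; ok v57 && (
  let v58 := mul v57 v57; ok v58 && (
  let v59 := scale ⟨4398046511104, 0, 0, 0⟩ v11; ok v59 && (
  let v60 := neg v59; ok v60 && (
  let v61 := exp v60; ok v61 && (
  let v62 := scale ⟨1377959936, 0, 0, 0⟩ v53; ok v62 && (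
  let v63 := scale ⟨16582705152, 0, 0, 0⟩ v54; ok v63 && (
  let v64 := add v62 v63; ok v64 && (
  let v65 := scale ⟨6850084864, 0, 0, 0⟩ v55; ok v65 && (
  let v66 := add v64 v65; ok v66 && (
  let v67 := scale ⟨16461687422976, 0, 0, 0⟩ v51; ok v67 && (
  let v68 := add v66 v67; ok v68 && (
  let v69 := scale ⟨4096638844928, 0, 0, 0⟩ v56; ok v69 && (
  let v70 := add v68 v69; ok v70 && (
  let v71 := cst ⟨726277816320, 0, 0, 0⟩; ok v71 && (
  let v72 := add v70 v71; ok v72 && (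
  let v73 := mul x0 v28; ok v73 && (
  let v74 := mul v73 v72; ok v74 && (
  let v75 := add v74 v0; ok v75 && (
  let v76 := mul v61 v75; ok v76 && (
  let v77 := scale ⟨2199023255552, 0, 0, 0⟩ v57; ok v77 && (
  let v78 := mul v72 v61; ok v78 && (
  let v79 := sub v77 v78; ok v79 && (
  isPos 2 v79 && (
  let v80 := scale ⟨45678395392, 0, 0, 0⟩ v53; ok v80 && (
  let v81 := scale ⟨0, 4345298944, 0, 0⟩ v54; ok v81 && (
  let v82 := add v80 v81; ok v82 && (
  let v83 := scale ⟨8427601920, 0, 0, 0⟩ v55; ok v83 && (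
  let v84 := add v82 v83; ok v84 && (
  let v85 := scale ⟨21008391929856, 0, 0, 0⟩ v51; ok v85 && (
  let v86 := add v84 v85; ok v86 && (
  let v87 := scale ⟨0, 928088784896, 0, 0⟩ v56; ok v87 && (
  let v88 := add v86 v87; ok v88 && (
  let v89 := cst ⟨525528072192, 0, 0, 0⟩; ok v89 && (
  let v90 := add v88 v89; ok v90 && (
  isPos 2 v90 && (
  let v91 := cst ⟨14645838479360, 0, 0, 0⟩; ok v91 && (
  let v92 := add v29 v91; ok v92 && (
  isPos 2 v92 && (
  let v93 := cst ⟨13589544960, 0, 0, 0⟩; ok v93 && (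
  let v94 := sub x0 v93; ok v94 && (
  let v95 := cst ⟨5308579577856, 0, 0, 0⟩; ok v95 && (
  let v96 := sub v10 v95; ok v96 && (
  let v97 := mul v96 v96; ok v97 && (
  let v98 := mul v97 v96; ok v98 && (
  let v99 := mul v94 v96; ok v99 && (
  let v100 := mul v14 v14; ok v100 && (
  let v101 := mul v100 v100; ok v101 && (
  let v102 := scale ⟨8796093022208, 0, 0, 0⟩ v11; ok v102 && (
  let v103 := neg v102; ok v103 && (
  let v104 := exp v103; ok v104 && (
  let v105 := scale ⟨47056355328, 0, 0, 0⟩ v96; ok v105 && (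
  let v106 := scale ⟨12237406208, 0, 0, 0⟩ v97; ok v106 && (
  let v107 := add v105 v106; ok v107 && (
  let v108 := scale ⟨15277686784, 0, 0, 0⟩ v98; ok v108 && (
  let v109 := add v107 v108; ok v109 && (
  let v110 := scale ⟨37470079352832, 0, 0, 0⟩ v94; ok v110 && (
  let v111 := add v109 v110; ok v111 && (
  let v112 := scale ⟨3168550060032, 0, 0, 0⟩ v99; ok v112 && (
  let v113 := add v111 v112; ok v113 && (
  let v114 := cst ⟨1251805888512, 0, 0, 0⟩; ok v114 && (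
  let v115 := add v113 v114; ok v115 && (
  let v116 := mul x0 v28; ok v116 && (
  let v117 := mul v116 v115; ok v117 && (
  let v118 := add v117 v0; ok v118 && (
  let v119 := mul v104 v118; ok v119 && (
  let v120 := scale ⟨1099511627776, 0, 0, 0⟩ v101; ok v120 && (
  let v121 := add v120 v0; ok v121 && (
  let v122 := mul v100 v121; ok v122 && (
  let v123 := scale ⟨2199023255552, 0, 0, 0⟩ v122; ok v123 && (
  let v124 := mul v115 v104; ok v124 && (
  let v125 := sub v123 v124; ok v125 && (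
  isPos 2 v125 && (
  let v126 := scale ⟨23375314944, 0, 0, 0⟩ v96; ok v126 && (
  let v127 := scale ⟨0, 1539899392, 0, 0⟩ v97; ok v127 && (
  let v128 := add v126 v127; ok v128 && (
  let v129 := scale ⟨13358399488, 0, 0, 0⟩ v98; ok v129 && (
  let v130 := add v128 v129; ok v130 && (
  let v131 := scale ⟨16213037416448, 0, 0, 0⟩ v94; ok v131 && (
  let v132 := add v130 v131; ok v132 && (
  let v133 := scale ⟨0, 1393084399616, 0, 0⟩ v99; ok v133 && (
  let v134 := add v132 v133; ok v134 && (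
  let v135 := cst ⟨482823110656, 0, 0, 0⟩; ok v135 && (
  let v136 := add v134 v135; ok v136 && (
  isPos 2 v136 && (
  let v137 := cst ⟨16664473108480, 0, 0, 0⟩; ok v137 && (
  let v138 := add v29 v137; ok v138 && (
  isPos 2 v138 && (
  let v139 := cst ⟨13589544960, 0, 0, 0⟩; ok v139 && (
  let v140 := sub x0 v139; ok v140 && (
  let v141 := cst ⟨5308579577856, 0, 0, 0⟩; ok v141 && (
  let v142 := sub v10 v141; ok v142 && (
  let v143 := mul v142 v142; ok v143 && (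
  let v144 := mul v143 v142; ok v144 && (
  let v145 := mul v140 v142; ok v145 && (
  let v146 := mul v14 v14; ok v146 && (
  let v147 := mul v146 v146; ok v147 && (
  let v148 := scale ⟨13194139533312, 0, 0, 0⟩ v11; ok v148 && (
  let v149 := neg v148; ok v149 && (
  let v150 := exp v149; ok v150 && (
  let v151 := scale ⟨70431670272, 0, 0, 0⟩ v142; ok v151 && (
  let v152 := scale ⟨10697506816, 0, 0, 0⟩ v143; ok v152 && (
  let v153 := add v151 v152; ok v153 && (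
  let v154 := scale ⟨28636086272, 0, 0, 0⟩ v144; ok v154 && (
  let v155 := add v153 v154; ok v155 && (
  let v156 := scale ⟨53683116769280, 0, 0, 0⟩ v140; ok v156 && (
  let v157 := add v155 v156; ok v157 && (
  let v158 := scale ⟨1775465660416, 0, 0, 0⟩ v145; ok v158 && (
  let v159 := add v157 v158; ok v159 && (
  let v160 := cst ⟨1734628999168, 0, 0, 0⟩; ok v160 && (
  let v161 := add v159 v160; ok v161 && (
  let v162 := mul x0 v28; ok v162 && (
  let v163 := mul v162 v161; ok v163 && (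
  let v164 := add v163 v0; ok v164 && (
  let v165 := mul v150 v164; ok v165 && (
  let v166 := scale ⟨1099511627776, 0, 0, 0⟩ v147; ok v166 && (
  let v167 := add v166 v0; ok v167 && (
  let v168 := mul v147 v167; ok v168 && (
  let v169 := add v168 v0; ok v169 && (
  let v170 := mul v146 v169; ok v170 && (
  let v171 := scale ⟨2199023255552, 0, 0, 0⟩ v170; ok v171 && (
  let v172 := mul v161 v150; ok v172 && (
  let v173 := sub v171 v172; ok v173 && (
  isPos 2 v173 && (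
  let v174 := scale ⟨3054043136, 0, 0, 0⟩ v142; ok v174 && (
  let v175 := scale ⟨0, 2775187456, 0, 0⟩ v143; ok v175 && (
  let v176 := add v174 v175; ok v176 && (
  let v177 := scale ⟨15206514688, 0, 0, 0⟩ v144; ok v177 && (
  let v178 := add v176 v177; ok v178 && (
  let v179 := scale ⟨11604714389504, 0, 0, 0⟩ v140; ok v179 && (
  let v180 := add v178 v179; ok v180 && (
  let v181 := scale ⟨0, 4107427446784, 0, 0⟩ v145; ok v181 && (
  let v182 := add v180 v181; ok v182 && (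
  let v183 := cst ⟨456173748224, 0, 0, 0⟩; ok v183 && (
  let v184 := add v182 v183; ok v184 && (
  isPos 2 v184 && (
  let v185 := cst ⟨17537425211392, 0, 0, 0⟩; ok v185 && (
  let v186 := add v29 v185; ok v186 && (
  isPos 2 v186 && (
  let v187 := cst ⟨13589544960, 0, 0, 0⟩; ok v187 && (
  let v188 := sub x0 v187; ok v188 && (
  let v189 := cst ⟨5308579577856, 0, 0, 0⟩; ok v189 && (
  let v190 := sub v10 v189; ok v190 && (
  let v191 := mul v190 v190; ok v191 && (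
  let v192 := mul v191 v190; ok v192 && (
  let v193 := mul v188 v190; ok v193 && (
  let v194 := mul v14 v14; ok v194 && (
  let v195 := mul v194 v194; ok v195 && (
  let v196 := scale ⟨17592186044416, 0, 0, 0⟩ v11; ok v196 && (
  let v197 := neg v196; ok v197 && (
  let v198 := exp v197; ok v198 && (
  let v199 := scale ⟨73485713408, 0, 0, 0⟩ v190; ok v199 && (
  let v200 := scale ⟨7922319360, 0, 0, 0⟩ v191; ok v200 && (
  let v201 := add v199 v200; ok v201 && (
  let v202 := scale ⟨43842600960, 0, 0, 0⟩ v192; ok v202 && (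
  let v203 := add v201 v202; ok v203 && (
  let v204 := scale ⟨65287831158784, 0, 0, 0⟩ v188; ok v204 && (
  let v205 := add v203 v204; ok v205 && (
  let v206 := scale ⟨0, 2331961786368, 0, 0⟩ v193; ok v206 && (
  let v207 := add v205 v206; ok v207 && (
  let v208 := cst ⟨2190802747392, 0, 0, 0⟩; ok v208 && (
  let v209 := add v207 v208; ok v209 && (
  let v210 := mul x0 v28; ok v210 && (
  let v211 := mul v210 v209; ok v211 && (
  let v212 := add v211 v0; ok v212 && (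
  let v213 := mul v198 v212; ok v213 && (
  let v214 := scale ⟨1099511627776, 0, 0, 0⟩ v195; ok v214 && (
  let v215 := add v214 v0; ok v215 && (
  let v216 := mul v195 v215; ok v216 && (
  let v217 := add v216 v0; ok v217 && (
  let v218 := mul v195 v217; ok v218 && (
  let v219 := add v218 v0; ok v219 && (
  let v220 := mul v194 v219; ok v220 && (
  let v221 := scale ⟨2199023255552, 0, 0, 0⟩ v220; ok v221 && (
  let v222 := mul v209 v198; ok v222 && (
  let v223 := sub v221 v222; ok v223 && (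
  isPos 2 v223 && (
  let v224 := scale ⟨0, 4599119872, 0, 0⟩ v190; ok v224 && (
  let v225 := scale ⟨0, 5456003072, 0, 0⟩ v191; ok v225 && (
  let v226 := add v224 v225; ok v226 && (
  let v227 := scale ⟨8867872768, 0, 0, 0⟩ v192; ok v227 && (
  let v228 := add v226 v227; ok v228 && (
  let v229 := scale ⟨6534503792640, 0, 0, 0⟩ v188; ok v229 && (
  let v230 := add v228 v229; ok v230 && (
  let v231 := scale ⟨0, 6852094525440, 0, 0⟩ v193; ok v231 && (
  let v232 := add v230 v231; ok v232 && (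
  let v233 := cst ⟨437579415552, 0, 0, 0⟩; ok v233 && (
  let v234 := add v232 v233; ok v234 && (
  isPos 2 v234 && (
  let v235 := cst ⟨17149804412928, 0, 0, 0⟩; ok v235 && (
  let v236 := add v29 v235; ok v236 && (
  isPos 2 v236 && (
  let v237 := cst ⟨13589544960, 0, 0, 0⟩; ok v237 && (
  let v238 := sub x0 v237; ok v238 && (
  let v239 := cst ⟨5308579577856, 0, 0, 0⟩; ok v239 && (
  let v240 := sub v10 v239; ok v240 && (
  let v241 := mul v240 v240; ok v241 && (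
  let v242 := mul v241 v240; ok v242 && (
  let v243 := mul v238 v240; ok v243 && (
  let v244 := mul v14 v14; ok v244 && (
  let v245 := mul v244 v244; ok v245 && (
  let v246 := scale ⟨21990232555520, 0, 0, 0⟩ v11; ok v246 && (
  let v247 := neg v246; ok v247 && (
  let v248 := exp v247; ok v248 && (
  let v249 := scale ⟨68886593536, 0, 0, 0⟩ v240; ok v249 && (
  let v250 := scale ⟨2466316288, 0, 0, 0⟩ v241; ok v250 && (
  let v251 := add v249 v250; ok v251 && (
  let v252 := scale ⟨52710473728, 0, 0, 0⟩ v242; ok v252 && (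
  let v253 := add v251 v252; ok v253 && (
  let v254 := scale ⟨71822334951424, 0, 0, 0⟩ v238; ok v254 && (
  let v255 := add v253 v254; ok v255 && (
  let v256 := scale ⟨0, 9184056311808, 0, 0⟩ v243; ok v256 && (
  let v257 := add v255 v256; ok v257 && (
  let v258 := cst ⟨2628382162944, 0, 0, 0⟩; ok v258 && (
  let v259 := add v257 v258; ok v259 && (
  let v260 := mul x0 v28; ok v260 && (
  let v261 := mul v260 v259; ok v261 && (
  let v262 := add v261 v0; ok v262 && (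
  let v263 := mul v248 v262; ok v263 && (
  let v264 := scale ⟨1099511627776, 0, 0, 0⟩ v245; ok v264 && (
  let v265 := add v264 v0; ok v265 && (
  let v266 := mul v245 v265; ok v266 && (
  let v267 := add v266 v0; ok v267 && (
  let v268 := mul v245 v267; ok v268 && (
  let v269 := add v268 v0; ok v269 && (
  let v270 := mul v245 v269; ok v270 && (
  let v271 := add v270 v0; ok v271 && (
  let v272 := mul v244 v271; ok v272 && (
  let v273 := scale ⟨2199023255552, 0, 0, 0⟩ v272; ok v273 && (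
  let v274 := mul v259 v248; ok v274 && (
  let v275 := sub v273 v274; ok v275 && (
  isPos 2 v275 && (
  let v276 := mul x0 v28; ok v276 && (
  let v277 := mul v276 v259; ok v277 && (
  let v278 := add v277 v0; ok v278 && (
  let v279 := scale ⟨4837850742784, 0, 0, 0⟩ v11; ok v279 && (
  let v280 := neg v279; ok v280 && (
  let v281 := exp v280; ok v281 && (
  let v282 := mul v278 v281; ok v282 && (
  isLt v282 1099511627520 && (
  true))))))))))))))))))))))))))))))))))))))))))))))))))))))))))))))))))))))))))))))))))))))))))))))))))))))))))))))))))))))))))))))))))))))))))))))))))))))))))))))))))))))))))))))))))))))))))))))))))))))))))))))))))))))))))))))))))))))))))))))))))))))))))))))))))))))))))))))))))))))))))))))))))))))))))))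
  | _ => false

set_option maxRecDepth 1000000 in
theorem c_S_0_eq (X : XOps) (m : List X.O.α)
    (h : c_S_0 X.O.cst X.O.add X.O.sub X.O.mul X.O.scale X.O.neg X.O.inv X.O.exp X.O.log X.O.ok
      X.O.isPos X.O.isLt X.ball X.rball m = true) :
    runX X 2 p_S_0 m = true := by
  match m, h with
  | [x0, x1], h => exact h

abbrev gS : List (List Op) := [p_S_0]

noncomputable abbrev kS : List (List xE.O.α → Bool) := [c_S_0 xE.O.cst xE.O.add xE.O.sub xE.O.mul xE.O.scale xE.O.neg xE.O.inv xE.O.exp xE.O.log xE.O.ok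
      xE.O.isPos xE.O.isLt xE.ball xE.rball]

theorem kS_eq : List.Forall₂ (fun (ops : List Op) (chk : List xE.O.α → Bool) =>
    ∀ m, chk m = true → runX xE 2 ops m = true) gS kS :=
  List.Forall₂.cons (c_S_0_eq xE) List.Forall₂.nil

theorem gS_eq : gS = [PSS tab 5] := by decide +kernel

end Pool.Agent.helper14.NS.Q68f
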