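import Pool.Agent.helper14.NS.Cert

/-!
Generated: table Q68f.
-/

namespace Pool.Agent.helper14.NS.Q68f

open Pool.Agent.helper63.NF Pool.Agent.helper4.NS

def tab : TD where
  strip := false
  bm := some (14619656358723584, -601020543533056, 7012575346688, 4398046511104)
  ec := 13589544960
  bc := 5308579577856
  H := [[[71206460992, -17823865984, 143691776, -27790656], [4543914807744, 293715224768], [-28255579397568]], [[-6297958528, 1678391936, -10569792], [-237759469632, -8511755648]], [[374418304, -94504960, 448896], [5448361664]], [[-15738944, 2980672], [-56245952]], [[432640, -40512]], [[-7296]], [[64]]]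
  pol := some ⟨-4563939622912, -184632054120448, 8290092187648, 62505594978304, [[-419118063872, 113760263680], [-41332084123904, 0]], [[-2342272157440, 608814717952], [-137868858257664, 0]]⟩
  a := [[[196975656960, -156762112, 6668681216, 4273471488], [228789714944, 12096805011456]], [[43718803456, -54001664, 0, 0], [-21106458624, -4347985920]], [[44111888384, 27262976, 0, 0], [10649272320, 2211643392]], [[43849416704, -27066368, 0, 0], [-10585112576, -2186477568]], [[44243681280, 54657024, 0, 0], [21362966528, 4448583680]]]
  j := [5085241278464, 1374389534720, 2886218022912, 4260607557632, 5772436045824]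
  c := [659814350848, 989453090816, 769604452352, 549755813888, 439697276928]
  M := [[[[1123216195584, 13767737344, 399638528], [4333197000704, 1817750536192], [168605433135104]], [[54149185536, -2944598016], [3764668858368]], [[6109134848, 597950464], [274524340224]], [[36688887808]], [[-23741136896]], [[55987732480]]], [[[1122820554752, 7055147008, -1411907584], [2765941112832]], [[6866665472, 79364096], [584057749504]], [[327680]], [[-65536]]], [[[1123215409152, 7309623296, -1641938944], [3034281017344]], [[6738477056, 63242240], [567690723328]], [[12582912]], [[-393216]]], [[[1123080536064, 7731937280, -1597440000], [3143480246272]], [[6784548864, 40239104], [560697835520]], [[8388608]], [[-327680]]], [[[1123176873984, 7986675712, -1528168448], [3225606815744]], [[6781861888, 26476544], [555557912576]], [[7405568]], [[-262144]]]]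
  l0 := [[[3711016808832, -158183027520], [-33997875177408]], [[1052096917376, 197270143296], [39674865006912]], [[245600152832, -63411912384], [-4181896817920]], [[3291196431296, 1709122944832], [536868184326016]], [[-21195872609984, -1227011303552], [-306849460188800]], [[73032514797952, 4286977206656], [1323675132634048]], [[-253567101878528]], [[554015885328576]], [[-1048120203344704]], [[1339366556953792]], [[-1240899072102400]], [[726765931200192]]]
  q0 := [[320699424384, 81690191808, -1040714688], [27389892833088, 5482278688960], [-147540632937792]]
  t := [[[726277816320, 1377959936, 16582705152, 6850084864], [16461687422976, 4096638844928]], [[525528072192, 45678395392, -4345298944, 8427601920], [21008391929856, -928088784896]], [[482823110656, 23375314944, -1539899392, 13358399488], [16213037416448, -1393084399616]], [[456173748224, 3054043136, -2775187456, 15206514688], [11604714389504, -4107427446784]], [[437579415552, -4599119872, -5456003072, 8867872768], [6534503792640, -6852094525440]]]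
  y := [11170136195072, 14645838479360, 16664473108480, 17537425211392, 17149804412928]
  sc := [0, 0, 0, 0, 0]
  L := [(0, 2), (0, 3), (1, 1), (2, 0)]
  Lt := [(0, 2), (0, 3), (1, 1)]
  far := 3
  x2 := 10775214161920
  B1 := 1099511627776
  C2 := 1436096814080
  f1 := 0
  f2 := 0
  f3 := 0
  is1 := 8796093022208
  s1 := 137438953472

end Pool.Agent.helper14.NS.Q68f
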